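import Mathlib
import Pool.Agent.Lib.P0c8ca5N.FB3
import Pool.Agent.Lib.P0c8ca5N.Least
import Pool.Agent.Lib.P0c8ca5N.Rad

/-!
# The wreath product with a cyclic group of order `p`: definitions

`WG p G = G ≀ C_p`, `bs p G` its base group `G ^ p`.
* `tn f x = ∏ q, f q (x.left q)` for `x` in the base group, `0` outside.
* `el p b`: the element of `k[WG p G]` with coefficients `tn (fun _ => b.coeff)`, that is
  `b ⊗ ⋯ ⊗ b`.
* `ps R`: the product of the subgroups `R q` of `G`, a subgroup of the base group.
* `pt f`: the element `f 1 ⊗ ⋯ ⊗ f n` of the group algebra of a finite product of groups.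
* `Ich N e`: the irreducible characters of `N` in the block `e`.
* `chSet N e`, `wtO p N e`: conjugacy under the whole group on `Ich N e` and `YT p N e`.
* `lN e`, `wN p e`: the numbers of irreducible representations and of classes of weights of the
  block `e` of the whole group; `ff p x = (x ^ p - x) / p + x`.
-/

namespace Pool.Agent.Lib.P0c8ca5.Wr

open MonoidAlgebra

set_option linter.unusedSectionVars false

/-- the cyclic group of order `p` -/
abbrev Cp (p : ℕ) : Type := Multiplicative (ZMod p)

/-- the wreath product of `G` with the cyclic group of order `p` -/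
abbrev WG (p : ℕ) (G : Type*) : Type _ := RegularWreathProduct G (Cp p)

section base
variable {p : ℕ} {G : Type*} [Group G]

/-- the base group -/
def bs (p : ℕ) (G : Type*) [Group G] : Subgroup (WG p G) :=
  (RegularWreathProduct.rightHom : WG p G →* Cp p).ker

theorem mem_bs {x : WG p G} : x ∈ bs p G ↔ x.right = 1 := MonoidHom.mem_ker

instance bs_normal : (bs p G).Normal := MonoidHom.normal_ker _

/-- the product of subgroups -/
def ps (R : Cp p → Subgroup G) : Subgroup (WG p G) where
  carrier := {x | x.right = 1 ∧ ∀ q, x.left q ∈ R q}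
  mul_mem' := by
    rintro a b ⟨h1, h2⟩ ⟨h3, h4⟩
    refine ⟨by rw [RegularWreathProduct.mul_right, h1, h3, one_mul], fun q => ?_⟩
    rw [RegularWreathProduct.mul_left, Pi.mul_apply, h1, inv_one, one_mul]
    exact (R q).mul_mem (h2 q) (h4 q)
  one_mem' := ⟨rfl, fun q => (R q).one_mem⟩
  inv_mem' := by
    rintro a ⟨h1, h2⟩
    refine ⟨by rw [RegularWreathProduct.inv_right, h1, inv_one], fun q => ?_⟩
    change (a.left (a.right * q))⁻¹ ∈ R q
    rw [h1, one_mul]
    exact (R q).inv_mem (h2 q)

theorem mem_ps {R : Cp p → Subgroup G} {x : WG p G} :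
    x ∈ ps R ↔ x.right = 1 ∧ ∀ q, x.left q ∈ R q := Iff.rfl

theorem ps_le (R : Cp p → Subgroup G) : ps R ≤ bs p G := fun _ hx => mem_bs.2 hx.1

theorem bs_pow (x : WG p G) : x ^ p ∈ bs p G := by
  rw [mem_bs]
  have h1 : (x ^ p).right = x.right ^ p := map_pow (RegularWreathProduct.rightHom : WG p G →* Cp p) x p
  rw [h1]
  have h2 : p • (Multiplicative.toAdd x.right : ZMod p) = 0 := by
    rw [nsmul_eq_mul, CharP.cast_eq_zero, zero_mul]
  exact h2

end base

section tn
variable {p : ℕ} [Fact p.Prime] {k : Type*} [Field k] {G : Type*} [Group G]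

open Classical in
/-- products of functions -/
noncomputable def tn (f : Cp p → G → k) : WG p G → k := fun x =>
  if x.right = 1 then ∏ q, f q (x.left q) else 0

theorem tn_of {f : Cp p → G → k} {x : WG p G} (h : x.right = 1) :
    tn f x = ∏ q, f q (x.left q) := if_pos h

theorem tn_not {f : Cp p → G → k} {x : WG p G} (h : x.right ≠ 1) : tn f x = 0 := if_neg h

/-- the element `b ⊗ ⋯ ⊗ b` -/
noncomputable def el [Finite G] (p : ℕ) [Fact p.Prime] (b : MonoidAlgebra k G) :
    MonoidAlgebra k (WG p G) :=
  MonoidAlgebra.ofCoeff (Finsupp.equivFunOnFinite.symm (tn fun _ => b.coeff))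

theorem coeff_el [Finite G] (b : MonoidAlgebra k G) (x : WG p G) :
    (el p b).coeff x = tn (fun _ => b.coeff) x := rfl

end tn

section pt
variable {k : Type*} [Field k] {ι : Type*} [Fintype ι] {H : ι → Type*} [∀ i, Group (H i)]
  [∀ i, Finite (H i)]

/-- the element `f 1 ⊗ ⋯ ⊗ f n` of the group algebra of a product -/
noncomputable def pt (f : ∀ i, MonoidAlgebra k (H i)) : MonoidAlgebra k (∀ i, H i) :=
  MonoidAlgebra.ofCoeff (Finsupp.equivFunOnFinite.symm fun x => ∏ i, (f i).coeff (x i))

theorem coeff_pt (f : ∀ i, MonoidAlgebra k (H i)) (x : ∀ i, H i) :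
    (pt f).coeff x = ∏ i, (f i).coeff (x i) := rfl

end pt

section counts
variable {k : Type*} [Field k] {A : Type*} [Group A]

/-- the irreducible characters of `N` in the block `e` -/
def Ich [Fintype A] (N : Subgroup A) (e : MonoidAlgebra k A) : Set (A → k) :=
  {χ | χ ∈ IrrCh k N ∧ conv e χ = χ}

/-- conjugacy of characters -/
def chSet [Fintype A] (N : Subgroup A) (e : MonoidAlgebra k A) : Setoid ↥(Ich N e) where
  r χ ψ := ∃ a : A, ∀ x, ψ.1 x = χ.1 (a⁻¹ * x * a)
  iseqv :=
    { refl := fun χ => ⟨1, fun x => by rw [inv_one, one_mul, mul_one]⟩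
      symm := fun {χ ψ} ⟨a, h⟩ => ⟨a⁻¹, fun x => by
        rw [h]
        congr 1
        group⟩
      trans := fun {χ ψ η} ⟨a, h⟩ ⟨b, h'⟩ => ⟨b * a, fun x => by
        rw [h', h]
        congr 1
        group⟩ }

/-- conjugacy of weights -/
def wtO (p : ℕ) (N : Subgroup A) (e : MonoidAlgebra k A) : Setoid ↥(YT p N e) where
  r w w' := ∃ a : A, w'.1 = a • w.1
  iseqv :=
    { refl := fun w => ⟨1, (one_smul A w.1).symm⟩
      symm := fun {w w'} ⟨a, h⟩ => ⟨a⁻¹, by rw [h, inv_smul_smul]⟩
      trans := fun {w w' w''} ⟨a, h⟩ ⟨b, h'⟩ => ⟨b * a, by rw [h', h, smul_smul]⟩ }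

/-- the number of irreducible representations in the block `e` of the whole group -/
noncomputable def lN (e : MonoidAlgebra k A) : ℕ :=
  Nat.card (Quotient (irrInvSetoid (⊤ : Subgroup A) ⊤ e))

/-- the number of classes of weights of the block `e` of the whole group -/
noncomputable def wN (p : ℕ) (e : MonoidAlgebra k A) : ℕ :=
  Nat.card ↥(invClasses p (⊤ : Subgroup A) e ⊤ ⊤)

end counts

/-- the number of orbits of a cyclic group of order `p` on the functions on it with `x` values -/
def ff (p x : ℕ) : ℕ := (x ^ p - x) / p + x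

end Pool.Agent.Lib.P0c8ca5.Wr
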