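import Mathlib
import Pool.Agent.Lib.P0c8ca5O.Defs

/-!
# Conjugation in the wreath product

For `x` in the base group and `a = (g, c)`: `(a⁻¹ x a).left i = (g (c i))⁻¹ * x.left (c i) * g (c i)`.
-/

namespace Pool.Agent.Lib.P0c8ca5.Wr

open MonoidAlgebra

set_option linter.unusedSectionVars false

variable {p : ℕ} {k : Type*} [Field k] {G : Type*} [Group G]

theorem conj_right (a x : WG p G) : (a⁻¹ * x * a).right = x.right := by
  rw [RegularWreathProduct.mul_right, RegularWreathProduct.mul_right,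
    RegularWreathProduct.inv_right, mul_comm, ← mul_assoc, mul_inv_cancel, one_mul]

theorem conj_left (a x : WG p G) (hx : x.right = 1) (q : Cp p) :
    (a⁻¹ * x * a).left q
      = (a.left (a.right * q))⁻¹ * x.left (a.right * q) * a.left (a.right * q) := by
  change (a.left (a.right * q))⁻¹ * x.left ((a⁻¹).right⁻¹ * q) * a.left ((a⁻¹ * x).right⁻¹ * q) = _
  rw [RegularWreathProduct.mul_right, hx, mul_one, RegularWreathProduct.inv_right, inv_inv]

theorem tn_conj [Fact p.Prime] (f : Cp p → G → k) (a x : WG p G) : tn f (a⁻¹ * x * a)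
    = tn (fun q y => f (a.right⁻¹ * q) ((a.left q)⁻¹ * y * a.left q)) x := by
  by_cases hx : x.right = 1
  · rw [tn_of ((conj_right a x).trans hx), tn_of hx]
    refine Fintype.prod_equiv (Equiv.mulLeft a.right) _ _ (fun q => ?_)
    rw [conj_left a x hx, Equiv.coe_mulLeft]
    change f q _ = f (a.right⁻¹ * (a.right * q)) _
    rw [inv_mul_cancel_left]
  · rw [tn_not (fun h => hx ((conj_right a x).symm.trans h)), tn_not hx]

theorem cg_ps (R : Cp p → Subgroup G) (a : WG p G) :
    cg a (ps R) = ps (fun q => cg (a.left q) (R (a.right⁻¹ * q))) := by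
  ext x
  rw [mem_cg, mem_ps, mem_ps, conj_right]
  refine and_congr_right (fun hx => ?_)
  constructor
  · intro h q
    rw [mem_cg]
    have h1 := h (a.right⁻¹ * q)
    rwa [conj_left a x hx, mul_inv_cancel_left] at h1
  · intro h q
    have h1 := h (a.right * q)
    rw [mem_cg, inv_mul_cancel_left] at h1
    rwa [conj_left a x hx]

theorem el_invBy [Fact p.Prime] [Finite G] {b : MonoidAlgebra k G}
    (hb : InvBy (⊤ : Subgroup G) b) : InvBy (⊤ : Subgroup (WG p G)) (el p b) := by
  intro a _ x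
  have h1 := tn_conj (fun _ : Cp p => (b.coeff : G → k)) a⁻¹ x
  rw [inv_inv] at h1
  rw [coeff_el, h1, coeff_el]
  congr 1
  funext q y
  exact (congrArg b.coeff (by rw [inv_inv])).trans (hb (a⁻¹.left q)⁻¹ (Subgroup.mem_top _) y)

theorem el_suppIn [Fact p.Prime] [Finite G] (b : MonoidAlgebra k G) :
    SuppIn (bs p G) (el p b) := by
  intro x hx
  rw [mem_bs]
  by_contra h
  exact hx (by rw [coeff_el, tn_not h])

theorem exists_pow_bs [Fact p.Prime] (x : WG p G) : ∃ n : ℕ, x ^ p ^ n ∈ bs p G :=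
  ⟨1, by rw [pow_one]; exact bs_pow x⟩

end Pool.Agent.Lib.P0c8ca5.Wr
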