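import Mathlib
import Pool.Agent.Lib.P0c8ca5O.Act

/-!
# IrT (1.5 h): products of irreducible characters are irreducible characters of the base group

PROOF.  `χ q = chi (ρ q)`, `ρ q : Rp k (⊤ : Subgroup G) (n q)` irreducible (definition of `IrrCh`, P0c8ca5N.Defs).  Let `M q g` be the matrix of `ρ q g`
(`LinearMap.toMatrix'`).  (1) Density (Burnside): every matrix is a linear combination of the matrices `M q g`, `g ∈ G` (`density` in P0c8ca5N.ChB, namespace `ChBAux`, for one
representation; `a : MonoidAlgebra k _` with `(ρ q).asAlgebraHom a = T`).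
(2) Let `I = ∀ q, Fin (n q)`.  `K x i j = ∏ q, M q (x.left q) (i q) (j q)` is a multiplicative map from `bs p G` to `Matrix I I k` (`Finset.prod_univ_sum`), with trace
`∏ q, trace (M q (x.left q)) = tn χ x`.  Extend it to `τ : MonoidAlgebra k (bs p G) →ₐ[k] Matrix I I k` (`MonoidAlgebra.lift`), reindex `I ≃ Fin d` (`Matrix.reindexAlgEquiv`).
(3) `τ` is surjective: the matrix units `E_(i j) = ∏_q (E_(i q, j q))` are products of matrix units, and by (1) `E_(i q, j q) = ∑_g a q g • M q g`, so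
`E_(i j) = ∑_(g : Cp p → G) (∏ q, a q (g q)) • K (g, 1)` (`Finset.prod_univ_sum`).  (4) `repOf_irr`, `trace_repOf` (P0c8ca5N.ChC, namespace `ChC`): `repOf τ` is irreducible with
trace `tn χ`; `d ≠ 0` because the spaces of irreducible representations are nontrivial (`irr_iff`, `Irr'.nontriv`).  Finally `tn χ x = 0` for `x` not in the base group.
-/

namespace Pool.Agent.Lib.P0c8ca5.Wr

open MonoidAlgebra

set_option linter.unusedSectionVars false

variable {p : ℕ} [Fact p.Prime] {k : Type*} [Field k] [IsAlgClosed k] {G : Type*}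
  [Group G] [Finite G]

namespace IrTAux

section mat
variable {H : Subgroup G} {n : ℕ}

/-- the matrix of the representation -/
noncomputable def mx (ρ : Rp k H n) (g : ↥H) : Matrix (Fin n) (Fin n) k :=
  LinearMap.toMatrix' (ρ g)

theorem mx_one (ρ : Rp k H n) : mx ρ 1 = 1 := by
  unfold mx
  rw [map_one]
  exact LinearMap.toMatrix'_one

theorem mx_mul (ρ : Rp k H n) (a b : ↥H) : mx ρ (a * b) = mx ρ a * mx ρ b := by
  unfold mx
  rw [map_mul]
  exact LinearMap.toMatrix'_mul _ _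

theorem mx_trace (ρ : Rp k H n) (g : ↥H) :
    (mx ρ g).trace = LinearMap.trace k (Fin n → k) (ρ g) := by
  unfold mx
  conv_rhs => rw [← Matrix.toLin'_toMatrix' (ρ g)]
  rw [Matrix.trace_toLin'_eq]

/-- every matrix is a combination of the matrices of the representation -/
theorem mx_span (ρ : Rp k H n) (hρ : ρ.IsIrreducible) [Fintype ↥H]
    (T : Matrix (Fin n) (Fin n) k) :
    ∃ a : ↥H → k, ∀ r s, ∑ g, a g * mx ρ g r s = T r s := by
  classical
  obtain ⟨a, -, ha⟩ := ChBAux.density (ι := Unit) (fun _ => n) (fun _ => ρ) (fun _ => hρ)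
    (fun i j hij => absurd (Subsingleton.elim i j) hij) () (Matrix.toLin' T)
  refine ⟨fun g => a.coeff g, fun r s => ?_⟩
  have h1 : ρ.asAlgebraHom a = ∑ h : ↥H, a.coeff h • ρ h := by
    rw [Representation.asAlgebraHom_def, MonoidAlgebra.lift_apply]
    exact Finsupp.sum_fintype _ _ (fun h => zero_smul _ _)
  have h2 : ∑ h : ↥H, a.coeff h • mx ρ h = T := by
    have h3 : LinearMap.toMatrix' (ρ.asAlgebraHom a) = T := by
      rw [ha, LinearMap.toMatrix'_toLin']
    rw [h1, map_sum] at h3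
    rw [← h3]
    refine Finset.sum_congr rfl fun h _ => ?_
    rw [map_smul]
    rfl
  have h4 := congrFun (congrFun h2 r) s
  rw [Matrix.sum_apply] at h4
  rw [← h4]
  rfl

end mat

section ker
variable (n : Cp p → ℕ) (ρ : ∀ q, Rp k (⊤ : Subgroup G) (n q))

/-- the Kronecker product of the matrices -/
noncomputable def KM (x : ∀ _ : Cp p, ↥(⊤ : Subgroup G)) :
    Matrix (∀ q, Fin (n q)) (∀ q, Fin (n q)) k :=
  fun i j => ∏ q, mx (ρ q) (x q) (i q) (j q)

theorem KM_one : KM n ρ 1 = 1 := by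
  classical
  ext i j
  unfold KM
  simp only [Pi.one_apply, mx_one]
  by_cases h : i = j
  · subst h
    rw [Matrix.one_apply_eq]
    exact Finset.prod_eq_one fun q _ => Matrix.one_apply_eq _
  · rw [Matrix.one_apply_ne h]
    obtain ⟨q, hq⟩ := Function.ne_iff.1 h
    exact Finset.prod_eq_zero (Finset.mem_univ q) (Matrix.one_apply_ne hq)

theorem KM_mul (x y : ∀ _ : Cp p, ↥(⊤ : Subgroup G)) :
    KM n ρ (x * y) = KM n ρ x * KM n ρ y := by
  classical
  ext i j
  rw [Matrix.mul_apply]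
  unfold KM
  simp only [Pi.mul_apply, mx_mul, Matrix.mul_apply]
  rw [Finset.prod_univ_sum, Fintype.piFinset_univ]
  refine Finset.sum_congr rfl fun l _ => ?_
  rw [Finset.prod_mul_distrib]

theorem KM_trace (x : ∀ _ : Cp p, ↥(⊤ : Subgroup G)) :
    (KM n ρ x).trace = ∏ q, (mx (ρ q) (x q)).trace := by
  classical
  simp only [Matrix.trace, Matrix.diag_apply]
  rw [Finset.prod_univ_sum, Fintype.piFinset_univ]
  rfl

/-- the components of an element of the base group -/
def cmp (x : ↥(bs p G)) : ∀ _ : Cp p, ↥(⊤ : Subgroup G) := fun q => ⟨x.1.left q, Subgroup.mem_top _⟩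

theorem cmp_mul (x y : ↥(bs p G)) : cmp (x * y) = cmp x * cmp y := by
  funext q
  apply Subtype.ext
  have hx : x.1.right = 1 := mem_bs.1 x.2
  change (x.1 * y.1).left q = x.1.left q * y.1.left q
  rw [RegularWreathProduct.mul_left, Pi.mul_apply, hx, inv_one, one_mul]

theorem cmp_one : cmp (1 : ↥(bs p G)) = 1 := rfl

/-- the element of the base group with given components -/
def mk (g : ∀ _ : Cp p, ↥(⊤ : Subgroup G)) : ↥(bs p G) :=
  ⟨⟨fun q => (g q : G), 1⟩, mem_bs.2 rfl⟩

theorem cmp_mk (g : ∀ _ : Cp p, ↥(⊤ : Subgroup G)) : cmp (mk g) = g := rfl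

/-- the homomorphism to the matrices -/
noncomputable def KH : ↥(bs p G) →* Matrix (∀ q, Fin (n q)) (∀ q, Fin (n q)) k where
  toFun x := KM n ρ (cmp x)
  map_one' := by rw [cmp_one, KM_one]
  map_mul' x y := by rw [cmp_mul, KM_mul]

theorem KH_apply (x : ↥(bs p G)) : KH n ρ x = KM n ρ (cmp x) := rfl

theorem lift_surj (hρ : ∀ q, (ρ q).IsIrreducible) :
    Function.Surjective (MonoidAlgebra.lift k (Matrix (∀ q, Fin (n q)) (∀ q, Fin (n q)) k)
      ↥(bs p G) (KH n ρ)) := by
  classical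
  have := Fintype.ofFinite ↥(⊤ : Subgroup G)
  set τ := MonoidAlgebra.lift k (Matrix (∀ q, Fin (n q)) (∀ q, Fin (n q)) k)
      ↥(bs p G) (KH n ρ) with hτ
  have hs : ∀ x c, τ (single x c) = c • KM n ρ (cmp x) := by
    intro x c
    rw [hτ, MonoidAlgebra.lift_single, KH_apply]
  have h1 : ∀ i j : (∀ q, Fin (n q)), ∃ b, τ b = Matrix.single i j 1 := by
    intro i j
    have h2 : ∀ q, ∃ a : ↥(⊤ : Subgroup G) → k, ∀ r s,
        ∑ g, a g * mx (ρ q) g r s = (Matrix.single (i q) (j q) (1 : k)) r s :=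
      fun q => mx_span (ρ q) (hρ q) _
    choose a ha using h2
    refine ⟨∑ g : (∀ _ : Cp p, ↥(⊤ : Subgroup G)), single (mk g) (∏ q, a q (g q)), ?_⟩
    rw [map_sum]
    ext r s
    rw [Matrix.sum_apply]
    simp only [hs, cmp_mk, Matrix.smul_apply, smul_eq_mul]
    have h3 : ∀ g : (∀ _ : Cp p, ↥(⊤ : Subgroup G)), (∏ q, a q (g q)) * KM n ρ g r s
        = ∏ q, (a q (g q) * mx (ρ q) (g q) (r q) (s q)) := by
      intro g
      rw [Finset.prod_mul_distrib]
      rfl
    simp only [h3]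
    have h4 := Finset.prod_univ_sum (fun _ : Cp p => (Finset.univ : Finset ↥(⊤ : Subgroup G)))
      (fun q g => a q g * mx (ρ q) g (r q) (s q))
    rw [Fintype.piFinset_univ] at h4
    rw [← h4]
    simp only [ha]
    by_cases h : i = r ∧ j = s
    · obtain ⟨rfl, rfl⟩ := h
      rw [Matrix.single_apply_same]
      exact Finset.prod_eq_one fun q _ => Matrix.single_apply_same _ _ _
    · rw [Matrix.single_apply_of_ne _ _ _ _ _ h]
      have h5 : ∃ q, ¬ (i q = r q ∧ j q = s q) := by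
        by_contra hcon
        push Not at hcon
        exact h ⟨funext fun q => (hcon q).1, funext fun q => (hcon q).2⟩
      obtain ⟨q, hq⟩ := h5
      exact Finset.prod_eq_zero (Finset.mem_univ q) (Matrix.single_apply_of_ne _ _ _ _ _ hq)
  choose b hb using h1
  intro M
  refine ⟨∑ i, ∑ j, M i j • b i j, ?_⟩
  rw [map_sum]
  conv_rhs => rw [Matrix.matrix_eq_sum_single M]
  refine Finset.sum_congr rfl fun i _ => ?_
  rw [map_sum]
  refine Finset.sum_congr rfl fun j _ => ?_
  rw [map_smul, hb, Matrix.smul_single, smul_eq_mul, mul_one]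

end ker

end IrTAux

theorem tn_mem_IrrCh {χ : Cp p → G → k} (h : ∀ q, χ q ∈ IrrCh k (⊤ : Subgroup G)) :
    tn χ ∈ IrrCh k (bs p G) := by
  classical
  choose n ρ hirr hchi using h
  have hnt : ∀ q, Nonempty (Fin (n q)) := by
    intro q
    have h1 := (irr_iff.1 (hirr q)).nontriv
    obtain ⟨v, hv⟩ := exists_ne (0 : Fin (n q) → k)
    by_contra h2
    rw [not_nonempty_iff] at h2
    exact hv (Subsingleton.elim _ _)
  have hI : Nonempty (∀ q, Fin (n q)) := ⟨fun q => (hnt q).some⟩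
  set d : ℕ := Fintype.card (∀ q, Fin (n q)) with hd
  have hd0 : NeZero d := ⟨Fintype.card_ne_zero⟩
  set e : (∀ q, Fin (n q)) ≃ Fin d := Fintype.equivFin _ with he
  set τ₀ := MonoidAlgebra.lift k (Matrix (∀ q, Fin (n q)) (∀ q, Fin (n q)) k)
      ↥(bs p G) (IrTAux.KH n ρ) with hτ₀
  let τ : MonoidAlgebra k ↥(bs p G) →ₐ[k] Matrix (Fin d) (Fin d) k :=
    (Matrix.reindexAlgEquiv k k e).toAlgHom.comp τ₀
  have hτ : Function.Surjective τ :=
    (Matrix.reindexAlgEquiv k k e).surjective.comp (IrTAux.lift_surj n ρ hirr)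
  refine ⟨d, ChC.repOf τ, ChC.repOf_irr τ hτ, ?_⟩
  funext x
  by_cases hx : x ∈ bs p G
  · rw [chi_of_mem _ hx, ChC.trace_repOf, tn_of (mem_bs.1 hx)]
    have h1 : τ (single ⟨x, hx⟩ 1) = Matrix.reindex e e (IrTAux.KM n ρ (IrTAux.cmp ⟨x, hx⟩)) := by
      change (Matrix.reindexAlgEquiv k k e) (τ₀ (single ⟨x, hx⟩ 1)) = _
      rw [hτ₀, MonoidAlgebra.lift_single, one_smul, IrTAux.KH_apply]
      rfl
    have h2 : (Matrix.reindex e e (IrTAux.KM n ρ (IrTAux.cmp ⟨x, hx⟩))).trace
        = (IrTAux.KM n ρ (IrTAux.cmp ⟨x, hx⟩)).trace := by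
      simp only [Matrix.trace, Matrix.diag_apply, Matrix.reindex_apply, Matrix.submatrix_apply]
      exact Equiv.sum_comp e.symm (fun i => IrTAux.KM n ρ (IrTAux.cmp ⟨x, hx⟩) i i)
    rw [h1, h2, IrTAux.KM_trace]
    refine Finset.prod_congr rfl fun q _ => ?_
    rw [IrTAux.mx_trace, hchi q, chi_of_mem _ (Subgroup.mem_top _)]
    rfl
  · rw [chi_of_notMem _ hx, tn_not]
    intro h1
    exact hx (mem_bs.2 h1)

end Pool.Agent.Lib.P0c8ca5.Wr
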