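import Mathlib
import Pool.Agent.Lib.P0c8ca5O.Defs

/-!
# PiA (1.2 h): products of elements of group algebras

`coeff_pt : (pt f).coeff x = ∏ i, (f i).coeff (x i)` (by `rfl`).
PROOF.
`pt_sum`: by coefficients: `Finset.prod_univ_sum` and `coeff_sum`/`Finsupp.finsetSum_apply` (see P0c8ca5.Blocks, proof of `supp_in_ker`,
for the coefficients of a finite sum).
`pt_mul`: by coefficients, `coeff_mul_fin` (P0c8ca5.Basic, `(a * b).coeff x = ∑ y, a.coeff y * b.coeff (y⁻¹ * x)`; take
`Fintype` instances with `Fintype.ofFinite`), `Finset.prod_univ_sum` (`Fintype.piFinset_univ`) and `Finset.prod_mul_distrib`.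
`pt_one`: the coefficient of `1` at `x` is `if x = 1 then 1 else 0` (`MonoidAlgebra.one_def`, `coeff_single`, `Finsupp.single_apply`).
`pt_ne_zero`: choose `x i` with `(f i).coeff (x i) ≠ 0`.
`pt_mem`: `mem_fixAlg` (P0c8ca5.Basic): `SuppIn ⊤` is trivial, `InvBy ⊤`: `coeff (g * x * g⁻¹) = coeff x`.
`exists_smul_of_pt_eq`: fix `i` and choose `x j` with `(g j).coeff (x j) ≠ 0` for all `j`. For `y` in `H i` compare the coefficients at
`Function.update x i y` (`Fintype.prod_eq_mul_prod_compl` or `Finset.prod_update_of_mem`; any way):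
`(f i).coeff y * F = (g i).coeff y * G'` with `F = ∏_{j ≠ i} (f j).coeff (x j)` and `G' = ∏_{j ≠ i} (g j).coeff (x j) ≠ 0`; for `y = x i`
the right side is not zero, so `F ≠ 0`; take `c = G' / F`.
`pt_idem_inj`: `f i = c • g i`; `pt f = pt g ≠ 0` gives `f i ≠ 0` (otherwise `pt f = 0`), `c * c = c`, so `c = 1`.
`pt_mul_eq_iff`: `→`: `pt φ * pt c = pt φ` gives `pt (φ i * c i) = pt φ`, so `φ i * c i = r i • φ i` (`exists_smul_of_pt_eq`),
`r i ≠ 0` (since `pt φ ≠ 0`) and `r i * r i = r i` by `c i * c i = c i`.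
-/

namespace Pool.Agent.Lib.P0c8ca5.Wr

open MonoidAlgebra

set_option linter.unusedSectionVars false

variable {k : Type*} [Field k] {ι : Type*} [Fintype ι] [DecidableEq ι] {H : ι → Type*}
  [∀ i, Group (H i)] [∀ i, Finite (H i)]

theorem pt_sum {κ : ι → Type*} (S : ∀ i, Finset (κ i)) (F : ∀ i, κ i → MonoidAlgebra k (H i)) :
    pt (fun i => ∑ j ∈ S i, F i j) = ∑ j ∈ Fintype.piFinset S, pt (fun i => F i (j i)) := by
  ext x
  rw [coeff_pt, coeff_sum, Finsupp.finsetSum_apply]
  have h1 : ∀ i, (∑ j ∈ S i, F i j).coeff (x i) = ∑ j ∈ S i, (F i j).coeff (x i) := fun i => by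
    rw [coeff_sum, Finsupp.finsetSum_apply]
  calc ∏ i, (∑ j ∈ S i, F i j).coeff (x i)
      = ∏ i, ∑ j ∈ S i, (F i j).coeff (x i) := Finset.prod_congr rfl fun i _ => h1 i
    _ = ∑ j ∈ Fintype.piFinset S, ∏ i, (F i (j i)).coeff (x i) :=
        Finset.prod_univ_sum S fun i j => (F i j).coeff (x i)
    _ = _ := Finset.sum_congr rfl fun j _ => rfl

theorem pt_mul (f g : ∀ i, MonoidAlgebra k (H i)) :
    pt f * pt g = pt (fun i => f i * g i) := by
  classical
  have : ∀ i, Fintype (H i) := fun i => Fintype.ofFinite (H i)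
  ext x
  rw [coeff_mul_fin, coeff_pt]
  have h1 : ∀ i, (f i * g i).coeff (x i)
      = ∑ y ∈ (Finset.univ : Finset (H i)), (f i).coeff y * (g i).coeff (y⁻¹ * x i) :=
    fun i => coeff_mul_fin _ _ _
  calc ∑ y, (pt f).coeff y * (pt g).coeff (y⁻¹ * x)
      = ∑ y : (∀ i, H i), ∏ i, ((f i).coeff (y i) * (g i).coeff ((y i)⁻¹ * x i)) :=
        Finset.sum_congr rfl fun y _ => by
          rw [coeff_pt, coeff_pt, ← Finset.prod_mul_distrib]
          rfl
    _ = ∑ y ∈ Fintype.piFinset (fun i => (Finset.univ : Finset (H i))),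
          ∏ i, ((f i).coeff (y i) * (g i).coeff ((y i)⁻¹ * x i)) := by
        rw [Fintype.piFinset_univ]
    _ = ∏ i, ∑ y ∈ (Finset.univ : Finset (H i)), (f i).coeff y * (g i).coeff (y⁻¹ * x i) :=
        (Finset.prod_univ_sum (fun i => (Finset.univ : Finset (H i)))
          fun i y => (f i).coeff y * (g i).coeff (y⁻¹ * x i)).symm
    _ = ∏ i, (f i * g i).coeff (x i) := Finset.prod_congr rfl fun i _ => (h1 i).symm

theorem pt_one : pt (fun i => (1 : MonoidAlgebra k (H i))) = 1 := by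
  classical
  ext x
  rw [coeff_pt]
  by_cases hx : x = 1
  · subst hx
    rw [coeff_one_one]
    exact Finset.prod_eq_one fun i _ => coeff_one_one
  · have h2 : (1 : MonoidAlgebra k (∀ i, H i)).coeff x = 0 := by
      rw [one_def, coeff_single, Finsupp.single_apply, if_neg (Ne.symm hx)]
    rw [h2]
    obtain ⟨i, hi⟩ : ∃ i, x i ≠ 1 := by
      by_contra h
      push Not at h
      exact hx (funext h)
    refine Finset.prod_eq_zero (Finset.mem_univ i) ?_
    rw [one_def, coeff_single, Finsupp.single_apply, if_neg (Ne.symm hi)]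

private theorem exists_coeff {A : Type*} {a : MonoidAlgebra k A} (h : a ≠ 0) :
    ∃ x, a.coeff x ≠ 0 := by
  by_contra h1
  push Not at h1
  exact h (by ext x; rw [h1 x]; rfl)

theorem pt_ne_zero {f : ∀ i, MonoidAlgebra k (H i)} (h : ∀ i, f i ≠ 0) : pt f ≠ 0 := by
  choose x hx using fun i => exists_coeff (h i)
  intro h0
  have h1 := coeff_pt f x
  rw [h0] at h1
  exact Finset.prod_ne_zero_iff.2 (fun i _ => hx i) h1.symm

theorem pt_smul (c : ι → k) (f : ∀ i, MonoidAlgebra k (H i)) :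
    pt (fun i => c i • f i) = (∏ i, c i) • pt f := by
  ext x
  rw [coeff_pt, coeff_smul_apply, coeff_pt, smul_eq_mul, ← Finset.prod_mul_distrib]
  exact Finset.prod_congr rfl fun i _ => by rw [coeff_smul_apply, smul_eq_mul]

theorem pt_mem {f : ∀ i, MonoidAlgebra k (H i)}
    (h : ∀ i, f i ∈ fixAlg k (⊤ : Subgroup (H i)) ⊤) :
    pt f ∈ fixAlg k (⊤ : Subgroup (∀ i, H i)) ⊤ := by
  rw [mem_fixAlg]
  refine ⟨fun x _ => Subgroup.mem_top x, fun g _ x => ?_⟩
  rw [coeff_pt, coeff_pt]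
  exact Finset.prod_congr rfl fun i _ => (mem_fixAlg.1 (h i)).2 (g i) (Subgroup.mem_top _) (x i)

theorem exists_smul_of_pt_eq {f g : ∀ i, MonoidAlgebra k (H i)} (h : pt f = pt g)
    (hg : ∀ i, g i ≠ 0) (i : ι) : ∃ c : k, f i = c • g i := by
  classical
  choose x hx using fun i => exists_coeff (hg i)
  have key : ∀ (u : ∀ i, MonoidAlgebra k (H i)) (y : H i),
      (pt u).coeff (Function.update x i y)
        = (u i).coeff y * ∏ j ∈ Finset.univ.erase i, (u j).coeff (x j) := by
    intro u y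
    rw [coeff_pt, ← Finset.mul_prod_erase Finset.univ _ (Finset.mem_univ i),
      Function.update_self]
    congr 1
    refine Finset.prod_congr rfl fun j hj => ?_
    rw [Function.update_of_ne (Finset.ne_of_mem_erase hj)]
  have h1 : ∀ y : H i, (f i).coeff y * ∏ j ∈ Finset.univ.erase i, (f j).coeff (x j)
      = (g i).coeff y * ∏ j ∈ Finset.univ.erase i, (g j).coeff (x j) := fun y => by
    rw [← key f y, ← key g y, h]
  have h2 : ∏ j ∈ Finset.univ.erase i, (g j).coeff (x j) ≠ 0 :=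
    Finset.prod_ne_zero_iff.2 fun j _ => hx j
  have h3 : ∏ j ∈ Finset.univ.erase i, (f j).coeff (x j) ≠ 0 := by
    intro h4
    have h5 := h1 (x i)
    rw [h4, mul_zero] at h5
    exact mul_ne_zero (hx i) h2 h5.symm
  refine ⟨(∏ j ∈ Finset.univ.erase i, (g j).coeff (x j))
    / ∏ j ∈ Finset.univ.erase i, (f j).coeff (x j), ?_⟩
  ext y
  rw [coeff_smul_apply, smul_eq_mul, div_mul_eq_mul_div, eq_div_iff h3, h1 y, mul_comm]

theorem pt_idem_inj {f g : ∀ i, MonoidAlgebra k (H i)} (h : pt f = pt g)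
    (hf : ∀ i, f i * f i = f i) (hg : ∀ i, g i * g i = g i) (h0 : ∀ i, g i ≠ 0) : f = g := by
  funext i
  obtain ⟨c, hc⟩ := exists_smul_of_pt_eq h h0 i
  have h1 : f i ≠ 0 := by
    intro h2
    have h3 : pt f = 0 := by
      ext x
      rw [coeff_pt]
      exact Finset.prod_eq_zero (Finset.mem_univ i) (by rw [h2]; rfl)
    exact pt_ne_zero h0 (h.symm.trans h3)
  have h2 : (c * c) • g i = c • g i := by
    have h3 := hf i
    rw [hc, smul_mul_smul_comm, hg i] at h3
    exact h3
  have h4 : (c * c - c) • g i = 0 := by rw [sub_smul, h2, sub_self]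
  have h5 : c * c - c = 0 := (smul_eq_zero.1 h4).resolve_right (h0 i)
  have h6 : c ≠ 0 := by
    rintro rfl
    exact h1 (by rw [hc, zero_smul])
  have h7 : c = 1 := mul_left_cancel₀ h6 (by rw [mul_one]; exact sub_eq_zero.1 h5)
  rw [hc, h7, one_smul]

theorem pt_mul_eq_iff {φ c : ∀ i, MonoidAlgebra k (H i)} (hφ : ∀ i, φ i ≠ 0)
    (hc : ∀ i, c i * c i = c i) :
    pt φ * pt c = pt φ ↔ ∀ i, φ i * c i = φ i := by
  rw [pt_mul]
  constructor
  · intro h i
    obtain ⟨r, hr⟩ := exists_smul_of_pt_eq h hφ i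
    have h1 : r ≠ 0 := by
      rintro rfl
      rw [zero_smul] at hr
      have h3 : pt (fun i => φ i * c i) = 0 := by
        ext x
        rw [coeff_pt]
        exact Finset.prod_eq_zero (Finset.mem_univ i) (by rw [hr]; rfl)
      exact pt_ne_zero hφ (h.symm.trans h3)
    have h2 : φ i * c i * c i = φ i * c i := by rw [mul_assoc, hc i]
    have h3 : (r * r - r) • φ i = 0 := by
      have h4 : (r • φ i) * c i = r • φ i := by rw [← hr]; exact h2
      rw [smul_mul_assoc, hr, smul_smul] at h4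
      rw [sub_smul, h4, sub_self]
    have h5 : r * r - r = 0 := (smul_eq_zero.1 h3).resolve_right (hφ i)
    have h7 : r = 1 := mul_left_cancel₀ h1 (by rw [mul_one]; exact sub_eq_zero.1 h5)
    rw [hr, h7, one_smul]
  · intro h
    congr 1
    funext i
    exact h i

end Pool.Agent.Lib.P0c8ca5.Wr
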