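import Mathlib
import Pool.Agent.Lib.P0c8ca5O.PiA

/-!
# PiB (1.5 h): the blocks of a finite direct product of groups are the products of blocks

Write `Z i = fixAlg k (⊤ : Subgroup (H i)) ⊤` and `Z = fixAlg k (⊤ : Subgroup (∀ i, H i)) ⊤` (commutative: `fixAlgCommRing`, finite
dimensional).
PROOF.
(a) `z ↦ pt (Function.update 1 i z)` is a homomorphism of `k`-algebras `u i : Z i →ₐ[k] Z` (`pt_mem`, `pt_mul`, `pt_one`; additivity and
scalars by coefficients or from `pt_sum`/`pt_smul`), and `pt z = ∏ i, u i (z i)` (in `Z`; e.g. by induction over a `Finset` of indices: the product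
over `S` is `pt (fun i => if i ∈ S then z i else 1)`).
(b) the elements `pt z`, `z i ∈ Z i`, span `Z`: for `a ∈ Z`, `a = ∑_C a.coeff (fun i => (C i).out) • pt (fun i => c (C i))`, the sum over
`C : ∀ i, ConjClasses (H i)` (or over the classes of any other kind), `c C` = class sum; compare the coefficients at `x`: only the term
`C i = ConjClasses.mk (x i)` is nonzero, and `a.coeff` is constant on the classes of `∀ i, H i`, which are the products of the classes of the `H i`.
(c) so two characters `l, l' : Z →ₐ[k] k` with `l ∘ u i = l' ∘ u i` for all `i` are equal.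
(d) `isBlock_pt`: `pt f` is a nonzero idempotent of `Z`. Let `g ∈ Z`, `g * g = g`, `g * pt f = g`, `g ≠ 0`, `g ≠ pt f`. By
`exists_char_of_idem` (P0c8ca5.CommAlg) there are characters `l, l'` of `Z` with `l g = 1` and `l' (pt f - g) = 1`; so `l (pt f) = 1 = l' (pt f)`,
`l' g = 0`. From `l (pt f) = ∏ l (u i (f i)) = 1` and idempotency `l (u i (f i)) = 1`, the same for `l'`. By `PrimIdem.char_unique`
(`(h i).primIdem`, P0c8ca5.Blocks) `l.comp (u i) = l'.comp (u i)`, so `l = l'` by (c), a contradiction.
(e) `exists_pt_of_isBlock`: let `l` be a character of `Z` with `l F = 1` (`PrimIdem.exists_char`, `hF.primIdem`). By `exists_prim_of_char` there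
is a primitive idempotent `f i` of `Z i` with `l (u i (f i)) = 1` (`isBlock_of_primIdem`). Then `l (pt f) = 1`, so `F * pt f ≠ 0`, and
`IsBlock.eq_or_mul_eq_zero` with `isBlock_pt` gives `F = pt f`.
-/

namespace Pool.Agent.Lib.P0c8ca5.Wr

open MonoidAlgebra

set_option linter.unusedSectionVars false

variable {k : Type*} [Field k] [IsAlgClosed k] {ι : Type*} [Fintype ι] [DecidableEq ι]
  {H : ι → Type*} [∀ i, Group (H i)] [∀ i, Finite (H i)]

namespace PiBAux

open Classical in
/-- the class sum of the class `c` -/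
noncomputable def cs (k : Type*) [Field k] {A : Type*} [Group A] [Finite A] (c : ConjClasses A) :
    MonoidAlgebra k A :=
  MonoidAlgebra.ofCoeff (Finsupp.equivFunOnFinite.symm
    fun x => if ConjClasses.mk x = c then (1 : k) else 0)

open Classical in
theorem coeff_cs {k : Type*} [Field k] {A : Type*} [Group A] [Finite A] (c : ConjClasses A)
    (x : A) : (cs k c).coeff x = if ConjClasses.mk x = c then (1 : k) else 0 := rfl

theorem cs_mem {k : Type*} [Field k] {A : Type*} [Group A] [Finite A] (c : ConjClasses A) :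
    cs k c ∈ fixAlg k (⊤ : Subgroup A) ⊤ := by
  rw [mem_fixAlg]
  refine ⟨fun x _ => Subgroup.mem_top x, fun g _ x => ?_⟩
  have h1 : ConjClasses.mk (g * x * g⁻¹) = ConjClasses.mk x :=
    ConjClasses.mk_eq_mk_iff_isConj.2 (isConj_iff.2 ⟨g, rfl⟩).symm
  rw [coeff_cs, coeff_cs, h1]

theorem coeff_up (w : ∀ i, MonoidAlgebra k (H i)) (i : ι) (z : MonoidAlgebra k (H i))
    (x : ∀ i, H i) : (pt (Function.update w i z)).coeff x
      = z.coeff (x i) * ∏ j ∈ Finset.univ.erase i, (w j).coeff (x j) := by
  rw [coeff_pt, ← Finset.mul_prod_erase Finset.univ _ (Finset.mem_univ i), Function.update_self]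
  congr 1
  refine Finset.prod_congr rfl fun j hj => ?_
  rw [Function.update_of_ne (Finset.ne_of_mem_erase hj)]

theorem up_mem (i : ι) (z : fixAlg k (⊤ : Subgroup (H i)) ⊤) :
    pt (Function.update (1 : ∀ i, MonoidAlgebra k (H i)) i z.1)
      ∈ fixAlg k (⊤ : Subgroup (∀ i, H i)) ⊤ := by
  refine pt_mem fun j => ?_
  by_cases h : j = i
  · subst h
    rw [Function.update_self]
    exact z.2
  · rw [Function.update_of_ne h]
    exact Subalgebra.one_mem _

/-- the embedding of the centre of one factor -/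
noncomputable def up (i : ι) : fixAlg k (⊤ : Subgroup (H i)) ⊤ →ₐ[k]
    fixAlg k (⊤ : Subgroup (∀ i, H i)) ⊤ :=
  AlgHom.ofLinearMap
    { toFun := fun z => ⟨pt (Function.update (1 : ∀ i, MonoidAlgebra k (H i)) i z.1), up_mem i z⟩
      map_add' := fun z z' => Subtype.ext (by
        ext x
        change (pt (Function.update (1 : ∀ i, MonoidAlgebra k (H i)) i (z.1 + z'.1))).coeff x
          = (pt (Function.update (1 : ∀ i, MonoidAlgebra k (H i)) i z.1)).coeff x
            + (pt (Function.update (1 : ∀ i, MonoidAlgebra k (H i)) i z'.1)).coeff x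
        rw [coeff_up, coeff_up, coeff_up, ← add_mul]
        rfl)
      map_smul' := fun c z => Subtype.ext (by
        ext x
        change (pt (Function.update (1 : ∀ i, MonoidAlgebra k (H i)) i (c • z.1))).coeff x
          = (c • pt (Function.update (1 : ∀ i, MonoidAlgebra k (H i)) i z.1)).coeff x
        rw [coeff_smul_apply, coeff_up, coeff_up, coeff_smul_apply, smul_eq_mul, smul_eq_mul,
          mul_assoc]) }
    (Subtype.ext (by
      change pt (Function.update (1 : ∀ i, MonoidAlgebra k (H i)) i 1) = 1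
      rw [← pt_one (k := k) (H := H)]
      congr 1
      exact Function.update_eq_self i (1 : ∀ i, MonoidAlgebra k (H i))))
    (fun z z' => Subtype.ext (by
      change pt (Function.update (1 : ∀ i, MonoidAlgebra k (H i)) i (z.1 * z'.1))
        = pt (Function.update (1 : ∀ i, MonoidAlgebra k (H i)) i z.1)
          * pt (Function.update (1 : ∀ i, MonoidAlgebra k (H i)) i z'.1)
      rw [pt_mul]
      congr 1
      funext j
      by_cases h : j = i
      · subst h
        rw [Function.update_self, Function.update_self, Function.update_self]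
      · rw [Function.update_of_ne h, Function.update_of_ne h, Function.update_of_ne h]
        exact (one_mul (1 : MonoidAlgebra k (H j))).symm))

theorem coe_up (i : ι) (z : fixAlg k (⊤ : Subgroup (H i)) ⊤) :
    (up i z).1 = pt (Function.update (1 : ∀ i, MonoidAlgebra k (H i)) i z.1) := rfl

theorem prod_up_aux (z : ∀ i, fixAlg k (⊤ : Subgroup (H i)) ⊤) (S : Finset ι) :
    (∏ i ∈ S, up i (z i)).1 = pt (fun i => if i ∈ S then (z i).1 else 1) := by
  induction S using Finset.induction_on with
  | empty =>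
    rw [Finset.prod_empty]
    change (1 : MonoidAlgebra k (∀ i, H i)) = _
    rw [← pt_one (k := k) (H := H)]
    refine congrArg pt (funext fun i => ?_)
    rw [if_neg (Finset.notMem_empty i)]
  | insert i S hi ih =>
    rw [Finset.prod_insert hi]
    change (up i (z i)).1 * (∏ i ∈ S, up i (z i)).1 = _
    rw [ih, coe_up, pt_mul]
    congr 1
    funext j
    by_cases h : j = i
    · subst h
      rw [Function.update_self, if_neg hi, if_pos (Finset.mem_insert_self _ _), mul_one]
    · rw [Function.update_of_ne h]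
      by_cases hj : j ∈ S
      · rw [if_pos hj, if_pos (Finset.mem_insert_of_mem hj)]
        exact one_mul _
      · rw [if_neg hj, if_neg (fun h' => (Finset.mem_insert.1 h').elim h hj)]
        exact one_mul _

theorem prod_up (z : ∀ i, fixAlg k (⊤ : Subgroup (H i)) ⊤) :
    (∏ i, up i (z i)).1 = pt (fun i => (z i).1) := by
  rw [prod_up_aux]
  congr 1
  funext i
  rw [if_pos (Finset.mem_univ i)]

theorem prod_up' (z : ∀ i, fixAlg k (⊤ : Subgroup (H i)) ⊤) :
    (⟨pt fun i => (z i).1, pt_mem fun i => (z i).2⟩ : fixAlg k (⊤ : Subgroup (∀ i, H i)) ⊤)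
      = ∏ i, up i (z i) :=
  Subtype.ext (prod_up z).symm

/-- the characters are equal if they are equal on the factors -/
theorem char_ext (l l' : fixAlg k (⊤ : Subgroup (∀ i, H i)) ⊤ →ₐ[k] k)
    (h : ∀ i, l.comp (up i) = l'.comp (up i)) : l = l' := by
  classical
  have : Fintype (∀ i, ConjClasses (H i)) := Fintype.ofFinite _
  ext a
  have ha : a = ∑ C : ∀ i, ConjClasses (H i), a.1.coeff (fun i => (C i).out)
      • ∏ i, up i (⟨cs k (C i), cs_mem (C i)⟩ : fixAlg k (⊤ : Subgroup (H i)) ⊤) := by
    apply Subtype.ext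
    ext x
    rw [AddSubmonoidClass.coe_finsetSum, coeff_sum, Finsupp.finsetSum_apply]
    have h1 : ∀ C : ∀ i, ConjClasses (H i),
        ((a.1.coeff (fun i => (C i).out) • ∏ i, up i
          (⟨cs k (C i), cs_mem (C i)⟩ : fixAlg k (⊤ : Subgroup (H i)) ⊤) :
            fixAlg k (⊤ : Subgroup (∀ i, H i)) ⊤) : MonoidAlgebra k (∀ i, H i)).coeff x
          = if (fun i => ConjClasses.mk (x i)) = C then a.1.coeff (fun i => (C i).out) else 0 := by
      intro C
      have h2 : ((a.1.coeff (fun i => (C i).out) • ∏ i, up i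
          (⟨cs k (C i), cs_mem (C i)⟩ : fixAlg k (⊤ : Subgroup (H i)) ⊤) :
            fixAlg k (⊤ : Subgroup (∀ i, H i)) ⊤) : MonoidAlgebra k (∀ i, H i))
          = a.1.coeff (fun i => (C i).out) • (∏ i, up i
            (⟨cs k (C i), cs_mem (C i)⟩ : fixAlg k (⊤ : Subgroup (H i)) ⊤)).1 := rfl
      rw [h2, prod_up, coeff_smul_apply, coeff_pt, smul_eq_mul]
      by_cases hC : (fun i => ConjClasses.mk (x i)) = C
      · rw [if_pos hC, Finset.prod_eq_one, mul_one]
        intro i _
        rw [coeff_cs, if_pos (congrFun hC i)]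
      · rw [if_neg hC]
        obtain ⟨i, hi⟩ : ∃ i, ConjClasses.mk (x i) ≠ C i := by
          by_contra h3
          push Not at h3
          exact hC (funext h3)
        rw [Finset.prod_eq_zero (Finset.mem_univ i), mul_zero]
        rw [coeff_cs, if_neg hi]
    rw [Finset.sum_congr rfl fun C _ => h1 C, Finset.sum_ite_eq Finset.univ,
      if_pos (Finset.mem_univ _)]
    have h3 : ∀ i, ∃ g : H i, g * (ConjClasses.mk (x i)).out * g⁻¹ = x i := by
      intro i
      refine isConj_iff.1 (ConjClasses.mk_eq_mk_iff_isConj.1 ?_)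
      exact Quotient.out_eq (ConjClasses.mk (x i))
    choose g hg using h3
    have h4 := (mem_fixAlg.1 a.2).2 g (Subgroup.mem_top _)
      (fun i => (ConjClasses.mk (x i)).out)
    rw [← h4]
    congr 1
    funext i
    exact (hg i).symm
  rw [ha, map_sum, map_sum]
  refine Finset.sum_congr rfl fun C _ => ?_
  rw [map_smul, map_smul, map_prod, map_prod]
  congr 1
  refine Finset.prod_congr rfl fun i _ => ?_
  exact DFunLike.congr_fun (h i) _

theorem eq_one_of_prod {c : ι → k} (h : ∀ i, c i * c i = c i) (h1 : ∏ i, c i = 1) (i : ι) :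
    c i = 1 := by
  have h2 : c i ≠ 0 := by
    intro h3
    rw [Finset.prod_eq_zero (Finset.mem_univ i) h3] at h1
    exact zero_ne_one h1
  exact mul_left_cancel₀ h2 (by rw [h i, mul_one])

theorem char_pt {f : ∀ i, MonoidAlgebra k (H i)}
    (h : ∀ i, IsBlock (⊤ : Subgroup (H i)) (f i))
    (l : fixAlg k (⊤ : Subgroup (∀ i, H i)) ⊤ →ₐ[k] k)
    (hl : l ⟨pt f, pt_mem fun i => (h i).mem⟩ = 1) (i : ι) :
    (l.comp (up i)) ⟨f i, (h i).mem⟩ = 1 := by
  have h1 := congrArg l (prod_up' (k := k) fun i => (⟨f i, (h i).mem⟩ :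
    fixAlg k (⊤ : Subgroup (H i)) ⊤))
  rw [map_prod] at h1
  have h2 : l ⟨pt f, pt_mem fun i => (h i).mem⟩
      = ∏ i, (l.comp (up i)) ⟨f i, (h i).mem⟩ := h1
  rw [hl] at h2
  refine eq_one_of_prod (fun i => ?_) h2.symm i
  rw [← map_mul]
  congr 1
  exact Subtype.ext (h i).idem

theorem pt_idem {f : ∀ i, MonoidAlgebra k (H i)}
    (h : ∀ i, f i * f i = f i) : pt f * pt f = pt f := by
  rw [pt_mul]
  congr 1
  funext i
  exact h i

end PiBAux

open PiBAux in
theorem isBlock_pt {f : ∀ i, MonoidAlgebra k (H i)}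
    (h : ∀ i, IsBlock (⊤ : Subgroup (H i)) (f i)) : IsBlock (⊤ : Subgroup (∀ i, H i)) (pt f) where
  mem := pt_mem fun i => (h i).mem
  idem := pt_idem fun i => (h i).idem
  ne_zero := pt_ne_zero fun i => (h i).ne_zero
  prim := by
    intro g hg hgg hgf
    by_contra hcon
    push Not at hcon
    obtain ⟨h0, h1⟩ := hcon
    have hfd : FiniteDimensional k (fixAlg k (⊤ : Subgroup (∀ i, H i)) ⊤) := inferInstance
    set Z := fixAlg k (⊤ : Subgroup (∀ i, H i)) ⊤ with hZ
    let G : Z := ⟨g, hg⟩
    let F : Z := ⟨pt f, pt_mem fun i => (h i).mem⟩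
    have hG : G * G = G := Subtype.ext hgg
    have hF : F * F = F := Subtype.ext (pt_idem fun i => (h i).idem)
    have hGF : G * F = G := Subtype.ext hgf
    have hG0 : G ≠ 0 := fun h' => h0 (congrArg Subtype.val h')
    have hFG0 : F - G ≠ 0 := fun h' => h1 (congrArg Subtype.val (sub_eq_zero.1 h')).symm
    have hFG : (F - G) * (F - G) = F - G := by
      calc (F - G) * (F - G) = F * F - G * F - G * F + G * G := by ring
        _ = F - G := by rw [hF, hG, hGF]; ring
    obtain ⟨l, hl⟩ := exists_char_of_idem (k := k) hG0 hG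
    obtain ⟨l', hl'⟩ := exists_char_of_idem (k := k) hFG0 hFG
    have hlF : l F = 1 := by
      have h2 := congrArg l hGF
      rwa [map_mul, hl, one_mul] at h2
    have hl'G : l' G = 0 := by
      have h2 : G * (F - G) = 0 := by rw [mul_sub, hGF, hG, sub_self]
      have h3 := congrArg l' h2
      rwa [map_mul, hl', mul_one, map_zero] at h3
    have hl'F : l' F = 1 := by
      rw [map_sub, hl'G, sub_zero] at hl'
      exact hl'
    have hll : l = l' := char_ext l l' fun i =>
      (h i).primIdem.char_unique _ _ (char_pt h l hlF i) (char_pt h l' hl'F i)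
    rw [hll, hl'G] at hl
    exact zero_ne_one hl

open PiBAux in
theorem exists_pt_of_isBlock {F : MonoidAlgebra k (∀ i, H i)}
    (hF : IsBlock (⊤ : Subgroup (∀ i, H i)) F) :
    ∃ f : ∀ i, MonoidAlgebra k (H i), (∀ i, IsBlock (⊤ : Subgroup (H i)) (f i)) ∧ F = pt f := by
  obtain ⟨l, hl⟩ := hF.primIdem.exists_char (k := k)
  choose e he hle using fun i => exists_prim_of_char (l.comp (up (k := k) (H := H) i))
  have hb : ∀ i, IsBlock (⊤ : Subgroup (H i)) (e i).1 := fun i => isBlock_of_primIdem (he i)
  refine ⟨fun i => (e i).1, hb, ?_⟩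
  rcases hF.eq_or_mul_eq_zero (isBlock_pt hb) with h1 | h1
  · exact h1
  · exfalso
    have h2 : (⟨F, hF.mem⟩ : fixAlg k (⊤ : Subgroup (∀ i, H i)) ⊤)
        * ⟨pt fun i => (e i).1, pt_mem fun i => (e i).2⟩ = 0 := Subtype.ext h1
    have h3 := congrArg l h2
    rw [map_mul, hl, one_mul, map_zero, prod_up', map_prod] at h3
    have h4 : ∏ i, l (up i (e i)) = 1 := Finset.prod_eq_one fun i _ => hle i
    rw [h4] at h3
    exact one_ne_zero h3

end Pool.Agent.Lib.P0c8ca5.Wr
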