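import Mathlib
import Pool.Agent.Lib.P0c8ca5O.Act
import Pool.Agent.Lib.P0c8ca5O.PiB

/-!
# BlkE (0.5 h): `b ⊗ ⋯ ⊗ b` is a block of the base group

PROOF.  `ψ : ↥(⊤ : Subgroup (Cp p → G)) ≃* ↥(bs p G)`, `x ↦ ⟨x, 1⟩`; `el p b = tr ψ (pt fun _ => b)` (compare coefficients: `coeff_tr'`, `coeff_tr_of_notMem`, `coeff_el`,
`tn_of`, `tn_not`); `tr_isBlock` (P0c8ca5.Transport) and `isBlock_pt`.
`el_idem`: `tr_mul` and `pt_mul`, or from `isBlock_el`.
-/

namespace Pool.Agent.Lib.P0c8ca5.Wr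

open MonoidAlgebra

set_option linter.unusedSectionVars false

variable {p : ℕ} [Fact p.Prime] {k : Type*} [Field k] [IsAlgClosed k] {G : Type*} [Group G]
  [Finite G]

namespace BlkEAux

omit [Fact p.Prime] [Finite G] in
/-- the base group is a direct power of `G` -/
def ps1 (p : ℕ) (G : Type*) [Group G] : ↥(⊤ : Subgroup (Cp p → G)) ≃* ↥(bs p G) where
  toFun x := ⟨⟨x.1, 1⟩, mem_bs.2 rfl⟩
  invFun y := ⟨y.1.left, Subgroup.mem_top _⟩
  left_inv x := rfl
  right_inv y := by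
    apply Subtype.ext
    exact RegularWreathProduct.ext rfl (mem_bs.1 y.2).symm
  map_mul' x y := by
    apply Subtype.ext
    apply RegularWreathProduct.ext
    · funext q
      change x.1 q * y.1 q = x.1 q * y.1 ((1 : Cp p)⁻¹ * q)
      rw [inv_one, one_mul]
    · exact (mul_one (1 : Cp p)).symm

theorem el_eq_tr (b : MonoidAlgebra k G) :
    el p b = tr (ps1 p G) (pt fun _ : Cp p => b) := by
  ext x
  by_cases hx : x ∈ bs p G
  · rw [coeff_tr' (ps1 p G) _ hx, coeff_pt, coeff_el, tn_of (mem_bs.1 hx)]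
    rfl
  · rw [coeff_tr_of_notMem _ _ hx, coeff_el, tn_not (fun h => hx (mem_bs.2 h))]

end BlkEAux

theorem isBlock_el {b : MonoidAlgebra k G} (hb : IsBlock (⊤ : Subgroup G) b) :
    IsBlock (bs p G) (el p b) := by
  rw [BlkEAux.el_eq_tr]
  exact tr_isBlock _ (isBlock_pt fun _ => hb)

end Pool.Agent.Lib.P0c8ca5.Wr
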