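import Mathlib
import Pool.Agent.Lib.P0c8ca5O.IrT

/-!
# IrS (1.5 h): the irreducible characters of the base group are the products

PROOF.  Let `S = {tn χ | ∀ q, χ q ∈ IrrCh k ⊤}`; `S ⊆ IrrCh k (bs p G)` (`tn_mem_IrrCh`).
(1) `XH p k (bs p G) ≤ span S`.  Let `f ∈ XH p k (bs p G)`.  For `y : G` let `ind y : G → k`, `ind y x = 1` if `pr p x` is conjugate to `y` in `G` and `0` otherwise.  If `y` is p-regular
then `ind y ∈ XH p k ⊤` (`pr_conj`, `pr_pr`).  Choose a set `T` of representatives of the classes of p-regular elements of `G`.  For `x` in the base group, `f x = f (pr p x)` and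
`(pr p x).left q = pr p (x.left q)`: indeed `pr p x = x ^ uexp p (WG p G)`, and for a homomorphism `α` of finite groups `α (pr p x) = pr p (α x)`: let `x = s u`, `s = pr p x`,
`u = x s⁻¹` a p-element commuting with `s` (`exists_pow_mul_inv_pr`); `α s` is p-regular, `α u` a p-element; `pr_mul`, `pr_eq_self`, `pr_of_pow` (P0c8ca5N.RegP).  So `f x` depends only
on the classes of the `pr p (x.left q)`, and `f = ∑_(y : Cp p → T) f (y, 1) • tn (fun q => ind (y q))`.
(2) `tn` is multilinear (`Finset.prod_univ_sum`), so if every `g q ∈ span (IrrCh k ⊤)` then `tn g ∈ span S` (write `g q` as a finite linear combination: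
`Submodule.mem_span_iff_exists_finset_subset` or `Finsupp.mem_span_iff_linearCombination`; or induct with `Function.update` and `Submodule.span_induction`, one index at a time).
`span (IrrCh k ⊤) = XH p k ⊤` (`span_IrrCh`).
(3) `η ∈ IrrCh k (bs p G) ≤ XH p k (bs p G)` (`span_IrrCh`) `≤ span S`.  If `η ∉ S` this contradicts `chi_linearIndependent (bs p G)`
(`LinearIndependent.notMem_span_image` or `linearIndependent_iff_notMem_span`).
`tn_inj`: two families of irreducible characters with the same product are equal: `tn χ ≠ 0` (`chi_linearIndependent .. ne_zero`), so as in `exists_smul_of_pt_eq` (module PiA)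
`χ q = c • χ' q`; different irreducible characters are linearly independent.
-/

namespace Pool.Agent.Lib.P0c8ca5.Wr

open MonoidAlgebra

set_option linter.unusedSectionVars false

variable {p : ℕ} [Fact p.Prime] {k : Type*} [Field k] [IsAlgClosed k] [CharP k p] {G : Type*}
  [Group G] [Finite G]

namespace IrSAux

theorem mul_left' {a b : WG p G} (ha : a.right = 1) (q : Cp p) :
    (a * b).left q = a.left q * b.left q := by
  rw [RegularWreathProduct.mul_left, Pi.mul_apply, ha, inv_one, one_mul]

theorem pow_right {x : WG p G} (hx : x.right = 1) (n : ℕ) : (x ^ n).right = 1 := by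
  have h1 : (x ^ n).right = x.right ^ n :=
    map_pow (RegularWreathProduct.rightHom : WG p G →* Cp p) x n
  rw [h1, hx, one_pow]

theorem pow_left {x : WG p G} (hx : x.right = 1) (n : ℕ) (q : Cp p) :
    (x ^ n).left q = x.left q ^ n := by
  induction n with
  | zero => rw [pow_zero, pow_zero]; rfl
  | succ n ih => rw [pow_succ, mul_left' (pow_right hx n), ih, pow_succ]

theorem pr_right {x : WG p G} (hx : x.right = 1) : (pr p x).right = 1 := pow_right hx _

/-- the p-regular part is taken in each coordinate -/
theorem pr_left {x : WG p G} (hx : x.right = 1) (q : Cp p) :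
    (pr p x).left q = pr p (x.left q) := by
  obtain ⟨n, hn⟩ := exists_pow_mul_inv_pr (p := p) x
  have hs : (pr p x).right = 1 := pr_right hx
  have hsi : ((pr p x)⁻¹).right = 1 := by rw [RegularWreathProduct.inv_right, hs, inv_one]
  have hu : (x * (pr p x)⁻¹).right = 1 := by
    rw [RegularWreathProduct.mul_right, hx, hsi, one_mul]
  have hc : Commute (x * (pr p x)⁻¹) (pr p x) := by
    have h1 : Commute x (pr p x) := commute_pr (Commute.refl x)
    exact h1.mul_left (Commute.refl (pr p x)).inv_left
  have h2 : x.left q = (x * (pr p x)⁻¹).left q * (pr p x).left q := by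
    rw [← mul_left' hu, inv_mul_cancel_right]
  have h3 : Commute ((x * (pr p x)⁻¹).left q) ((pr p x).left q) := by
    have h4 := congrArg (fun z : WG p G => z.left q) hc.eq
    change (x * (pr p x)⁻¹ * pr p x).left q = (pr p x * (x * (pr p x)⁻¹)).left q at h4
    rw [mul_left' hu, mul_left' hs] at h4
    exact h4
  have h5 : ((x * (pr p x)⁻¹).left q) ^ p ^ n = 1 := by
    rw [← pow_left hu, hn]
    rfl
  have h6 : Preg p ((pr p x).left q) := by
    intro h7
    refine preg_pr (p := p) x (h7.trans ?_)
    apply orderOf_dvd_of_pow_eq_one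
    rw [← pow_left hs, pow_orderOf_eq_one]
    rfl
  rw [h2, pr_mul h3, pr_of_pow h5, one_mul, pr_eq_self h6]

open Classical in
/-- the value of a product of functions, one of which has been changed -/
theorem tn_update (g : Cp p → G → k) (q : Cp p) (v : G → k) {x : WG p G} (hx : x.right = 1) :
    tn (Function.update g q v) x
      = v (x.left q) * ∏ r ∈ Finset.univ.erase q, g r (x.left r) := by
  rw [tn_of hx, ← Finset.mul_prod_erase Finset.univ _ (Finset.mem_univ q), Function.update_self]
  congr 1
  refine Finset.prod_congr rfl fun r hr => ?_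
  rw [Function.update_of_ne (Finset.ne_of_mem_erase hr)]

open Classical in
theorem tn_update_zero (g : Cp p → G → k) (q : Cp p) :
    tn (Function.update g q (0 : G → k)) = 0 := by
  funext x
  by_cases hx : x.right = 1
  · rw [tn_update g q _ hx, Pi.zero_apply, zero_mul, Pi.zero_apply]
  · rw [tn_not hx, Pi.zero_apply]

open Classical in
theorem tn_update_add (g : Cp p → G → k) (q : Cp p) (v w : G → k) :
    tn (Function.update g q (v + w)) = tn (Function.update g q v) + tn (Function.update g q w) := by
  funext x
  by_cases hx : x.right = 1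
  · rw [Pi.add_apply, tn_update g q _ hx, tn_update g q _ hx, tn_update g q _ hx, Pi.add_apply,
      add_mul]
  · rw [Pi.add_apply, tn_not hx, tn_not hx, tn_not hx, add_zero]

open Classical in
theorem tn_update_smul (g : Cp p → G → k) (q : Cp p) (c : k) (v : G → k) :
    tn (Function.update g q (c • v)) = c • tn (Function.update g q v) := by
  funext x
  by_cases hx : x.right = 1
  · rw [Pi.smul_apply, tn_update g q _ hx, tn_update g q _ hx, Pi.smul_apply, smul_eq_mul,
      smul_eq_mul, mul_assoc]
  · rw [Pi.smul_apply, tn_not hx, tn_not hx, smul_zero]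

/-- the products of irreducible characters -/
def SS (p : ℕ) [Fact p.Prime] (k : Type*) [Field k] (G : Type*) [Group G] : Set (WG p G → k) :=
  {f | ∃ χ : Cp p → G → k, (∀ q, χ q ∈ IrrCh k (⊤ : Subgroup G)) ∧ f = tn χ}

open Classical in
theorem tn_mem_span {g : Cp p → G → k}
    (hg : ∀ q, g q ∈ Submodule.span k (IrrCh k (⊤ : Subgroup G))) :
    tn g ∈ Submodule.span k (SS p k G) := by
  have key : ∀ (s : Finset (Cp p)) (g : Cp p → G → k),
      (∀ q ∈ s, g q ∈ Submodule.span k (IrrCh k (⊤ : Subgroup G))) →
      (∀ q, q ∉ s → g q ∈ IrrCh k (⊤ : Subgroup G)) → tn g ∈ Submodule.span k (SS p k G) := by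
    intro s
    induction s using Finset.induction_on with
    | empty =>
      intro g _ h2
      exact Submodule.subset_span ⟨g, fun q => h2 q (Finset.notMem_empty q), rfl⟩
    | insert a s ha ih =>
      intro g h1 h2
      have h3 : ∀ v ∈ Submodule.span k (IrrCh k (⊤ : Subgroup G)),
          tn (Function.update g a v) ∈ Submodule.span k (SS p k G) := by
        intro v hv
        refine Submodule.span_induction (p := fun v _ =>
          tn (Function.update g a v) ∈ Submodule.span k (SS p k G)) ?_ ?_ ?_ ?_ hv
        · intro v hv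
          refine ih _ (fun q hq => ?_) (fun q hq => ?_)
          · have hqa : q ≠ a := fun e => ha (e ▸ hq)
            rw [Function.update_of_ne hqa]
            exact h1 q (Finset.mem_insert_of_mem hq)
          · by_cases hqa : q = a
            · rw [hqa, Function.update_self]
              exact hv
            · rw [Function.update_of_ne hqa]
              refine h2 q fun h => ?_
              rcases Finset.mem_insert.1 h with h | h
              · exact hqa h
              · exact hq h
        · rw [tn_update_zero]
          exact Submodule.zero_mem _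
        · intro v w _ _ hv hw
          rw [tn_update_add]
          exact Submodule.add_mem _ hv hw
        · intro c v _ hv
          rw [tn_update_smul]
          exact Submodule.smul_mem _ c hv
      have h4 := h3 (g a) (h1 a (Finset.mem_insert_self a s))
      rwa [Function.update_eq_self] at h4
  exact key Finset.univ g (fun q _ => hg q) (fun q hq => absurd (Finset.mem_univ q) hq)

/-- a representative of the class of the p-regular part -/
noncomputable def rp (p : ℕ) (x : G) : G := Quotient.out (ConjClasses.mk (pr p x))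

theorem rp_conj (h x : G) : rp p (h * x * h⁻¹) = rp p x := by
  have h1 : ConjClasses.mk (pr p (h * x * h⁻¹)) = ConjClasses.mk (pr p x) := by
    rw [pr_conj, ConjClasses.mk_eq_mk_iff_isConj]
    exact (isConj_iff.2 ⟨h, rfl⟩).symm
  exact congrArg (fun c : ConjClasses G => Quotient.out c) h1

theorem rp_pr (x : G) : rp p (pr p x) = rp p x := by
  unfold rp
  rw [pr_pr]

theorem isConj_rp (x : G) : IsConj (pr p x) (rp p x) := by
  have h := Quotient.out_eq (ConjClasses.mk (pr p x))
  exact (ConjClasses.mk_eq_mk_iff_isConj.1 h).symm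

open Classical in
/-- the indicator of a class -/
noncomputable def ind (p : ℕ) (k : Type*) [Field k] (y : G) : G → k :=
  fun x => if rp p x = y then 1 else 0

theorem ind_mem (y : G) : ind p k y ∈ XH p k (⊤ : Subgroup G) := by
  rw [mem_XH]
  refine ⟨fun x hx => absurd (Subgroup.mem_top x) hx, fun h _ x => ?_, fun x _ => ?_⟩
  · unfold ind
    rw [rp_conj]
  · unfold ind
    rw [rp_pr]

theorem XH_le : XH p k (bs p G) ≤ Submodule.span k (SS p k G) := by
  classical
  have : Fintype G := Fintype.ofFinite G
  intro f hf
  rw [mem_XH] at hf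
  obtain ⟨h1, h2, h3⟩ := hf
  have h4 : f = ∑ y : Cp p → G, f ⟨y, 1⟩ • tn (fun q => ind p k (y q)) := by
    funext x
    rw [Finset.sum_apply]
    by_cases hx : x.right = 1
    · rw [Finset.sum_eq_single (fun q => rp p (x.left q))]
      · rw [Pi.smul_apply, tn_of hx]
        have h5 : ∏ q, ind p k (rp p (x.left q)) (x.left q) = 1 :=
          Finset.prod_eq_one fun q _ => if_pos rfl
        rw [h5, smul_eq_mul, mul_one]
        have h6 : ∀ q, ∃ g : G, g * pr p (x.left q) * g⁻¹ = rp p (x.left q) := fun q =>
          isConj_iff.1 (isConj_rp (x.left q))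
        choose g hg using h6
        have h7 : (⟨g, 1⟩ : WG p G) ∈ bs p G := mem_bs.2 rfl
        have h8 : (⟨g, 1⟩ : WG p G) * pr p x * (⟨g, 1⟩ : WG p G)⁻¹
            = ⟨fun q => rp p (x.left q), 1⟩ := by
          have h9 : ((⟨g, 1⟩ : WG p G) * pr p x).right = 1 := by
            rw [RegularWreathProduct.mul_right, pr_right hx, mul_one]
          refine RegularWreathProduct.ext ?_ ?_
          · funext q
            rw [mul_left' h9, mul_left' (a := (⟨g, 1⟩ : WG p G)) rfl, pr_left hx]
            change g q * pr p (x.left q) * (g (1 * q))⁻¹ = _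
            rw [one_mul, hg]
          · rw [RegularWreathProduct.mul_right, h9, one_mul, RegularWreathProduct.inv_right,
              inv_one]
        rw [← h8, h2 _ h7, h3 x (mem_bs.2 hx)]
      · intro y _ hy
        rw [Pi.smul_apply, tn_of hx]
        have h5 : ∃ q, rp p (x.left q) ≠ y q := by
          by_contra hcon
          push Not at hcon
          exact hy (funext fun q => (hcon q).symm)
        obtain ⟨q, hq⟩ := h5
        rw [Finset.prod_eq_zero (Finset.mem_univ q) (if_neg hq), smul_zero]
      · intro h
        exact absurd (Finset.mem_univ _) h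
    · rw [h1 x (fun h => hx (mem_bs.1 h))]
      refine (Finset.sum_eq_zero fun y _ => ?_).symm
      rw [Pi.smul_apply, tn_not hx, smul_zero]
  rw [h4]
  refine Submodule.sum_mem _ fun y _ => Submodule.smul_mem _ _ (tn_mem_span fun q => ?_)
  rw [span_IrrCh (p := p)]
  exact ind_mem (y q)

end IrSAux

open IrSAux

theorem exists_tn_of_mem {η : WG p G → k} (h : η ∈ IrrCh k (bs p G)) :
    ∃ χ : Cp p → G → k, (∀ q, χ q ∈ IrrCh k (⊤ : Subgroup G)) ∧ η = tn χ := by
  by_contra hcon
  have h1 : η ∈ Submodule.span k (SS p k G) := by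
    apply XH_le
    rw [← span_IrrCh (p := p)]
    exact Submodule.subset_span h
  have h2 := (chi_linearIndependent (k := k) (bs p G)).notMem_span_image
    (s := {f | (f : WG p G → k) ∈ SS p k G}) (x := ⟨η, h⟩) hcon
  refine h2 (Submodule.span_mono ?_ h1)
  rintro f hf
  obtain ⟨χ, hχ, rfl⟩ := hf
  exact ⟨⟨tn χ, tn_mem_IrrCh hχ⟩, ⟨χ, hχ, rfl⟩, rfl⟩

theorem tn_inj {χ χ' : Cp p → G → k} (h : ∀ q, χ q ∈ IrrCh k (⊤ : Subgroup G))
    (h' : ∀ q, χ' q ∈ IrrCh k (⊤ : Subgroup G)) (he : tn χ = tn χ') : χ = χ' := by
  classical
  have h1 : ∀ q, ∃ x : G, χ' q x ≠ 0 := by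
    intro q
    have h2 : χ' q ≠ 0 :=
      (chi_linearIndependent (k := k) (⊤ : Subgroup G)).ne_zero (⟨χ' q, h' q⟩ : IrrCh k _)
    exact Function.ne_iff.1 h2
  choose x hx using h1
  funext q
  have h3 : ∀ y : G, χ q y * ∏ r ∈ Finset.univ.erase q, χ r (x r)
      = χ' q y * ∏ r ∈ Finset.univ.erase q, χ' r (x r) := by
    intro y
    have key : ∀ φ : Cp p → G → k, tn φ (⟨Function.update x q y, 1⟩ : WG p G)
        = φ q y * ∏ r ∈ Finset.univ.erase q, φ r (x r) := by
      intro φ
      rw [tn_of rfl, ← Finset.mul_prod_erase Finset.univ _ (Finset.mem_univ q)]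
      change φ q (Function.update x q y q) * ∏ r ∈ Finset.univ.erase q,
        φ r (Function.update x q y r) = _
      rw [Function.update_self]
      congr 1
      refine Finset.prod_congr rfl fun r hr => ?_
      rw [Function.update_of_ne (Finset.ne_of_mem_erase hr)]
    rw [← key, ← key, he]
  have h4 : (∏ r ∈ Finset.univ.erase q, χ' r (x r)) ≠ 0 :=
    Finset.prod_ne_zero_iff.2 fun r _ => hx r
  have h5 : (∏ r ∈ Finset.univ.erase q, χ r (x r)) ≠ 0 := by
    intro h6
    have h7 := h3 (x q)
    rw [h6, mul_zero] at h7
    exact mul_ne_zero (hx q) h4 h7.symm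
  by_contra hne
  have h8 := (chi_linearIndependent (k := k) (⊤ : Subgroup G)).notMem_span_image
    (s := {(⟨χ' q, h' q⟩ : IrrCh k (⊤ : Subgroup G))}) (x := ⟨χ q, h q⟩)
    (fun h9 => hne (congrArg Subtype.val (Set.mem_singleton_iff.1 h9)))
  apply h8
  rw [Set.image_singleton, Submodule.mem_span_singleton]
  refine ⟨(∏ r ∈ Finset.univ.erase q, χ' r (x r)) / ∏ r ∈ Finset.univ.erase q, χ r (x r), ?_⟩
  funext y
  rw [Pi.smul_apply, smul_eq_mul, div_mul_eq_mul_div, div_eq_iff h5, mul_comm, ← h3 y]

end Pool.Agent.Lib.P0c8ca5.Wr
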