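import Mathlib
import Pool.Agent.Lib.P0c8ca5O.IrS

/-!
# IrB (1 h): the irreducible characters of the base group in `b ⊗ ⋯ ⊗ b`

PROOF.
`conv_tn`: `conv c f x = ∑ h, c.coeff h * f (h * x)` (P0c8ca5N.Defs), `coeff_el`.  For `x.right ≠ 1`: if `h.right = 1` then `(h * x).right ≠ 1`, all terms are `0`.  For `x.right = 1` the sum over
`h` reduces to the base group (`RegularWreathProduct.equivProd`, `Fintype.sum_equiv`, `Fintype.sum_prod_type`) and `(h * x).left q = h.left q * x.left q`; `Finset.prod_univ_sum`,
`Fintype.piFinset_univ`, `Finset.prod_mul_distrib`.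
`exists_equivI`: the map `t ↦ tn (fun q => (t q).1)` lands in `Ich (bs p G) (el p b)` by `tn_mem_IrrCh`, `conv_tn`; injective by `tn_inj`; surjective: `η = tn χ` (`exists_tn_of_mem`) and
`conv (el p b) η = η` says `tn (fun q => conv b (χ q)) = tn χ`.  By `conv_eq_zero_of_ne` (P0c8ca5N.ChD) `conv b (χ q)` is `χ q` or `0`; if it is `0` for some `q` then `tn χ = 0`, but irreducible
characters are not `0` (`(chi_linearIndependent _).ne_zero`).
-/

namespace Pool.Agent.Lib.P0c8ca5.Wr

open MonoidAlgebra

set_option linter.unusedSectionVars false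

variable {p : ℕ} [Fact p.Prime] {k : Type*} [Field k] {G : Type*} [Group G] [Fintype G]
  [Fintype (WG p G)]

theorem conv_tn (b : MonoidAlgebra k G) (f : Cp p → G → k) :
    conv (el p b) (tn f) = tn (fun q => conv b (f q)) := by
  classical
  funext x
  change ∑ h : WG p G, (el p b).coeff h * tn f (h * x) = _
  by_cases hx : x.right = 1
  · rw [tn_of hx]
    change _ = ∏ q, ∑ g : G, b.coeff g * f q (g * x.left q)
    rw [Finset.prod_univ_sum, Fintype.piFinset_univ]
    symm
    refine Fintype.sum_of_injective (fun g : Cp p → G => (⟨g, 1⟩ : WG p G)) ?_ _ _ ?_ ?_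
    · intro g g' h
      exact congrArg (fun z : WG p G => z.left) h
    · intro h hh
      have h1 : h.right ≠ 1 := by
        intro h1
        apply hh
        refine ⟨h.left, ?_⟩
        exact RegularWreathProduct.ext rfl h1.symm
      rw [coeff_el, tn_not h1, zero_mul]
    · intro g
      have h1 : ((⟨g, 1⟩ : WG p G) * x).right = 1 := by
        rw [RegularWreathProduct.mul_right, hx, mul_one]
      rw [coeff_el, tn_of rfl, tn_of h1, ← Finset.prod_mul_distrib]
      refine Finset.prod_congr rfl fun q _ => ?_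
      have h2 : ((⟨g, 1⟩ : WG p G) * x).left q = g q * x.left q := by
        rw [RegularWreathProduct.mul_left, Pi.mul_apply, inv_one, one_mul]
      rw [h2]
  · rw [tn_not hx]
    refine Finset.sum_eq_zero fun h _ => ?_
    rw [coeff_el]
    by_cases hh : h.right = 1
    · have h1 : (h * x).right ≠ 1 := by
        rw [RegularWreathProduct.mul_right, hh, one_mul]
        exact hx
      rw [tn_not h1, mul_zero]
    · rw [tn_not hh, zero_mul]

theorem exists_equivI [IsAlgClosed k] [CharP k p] {b : MonoidAlgebra k G}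
    (hb : InvBy (⊤ : Subgroup G) b) (hbb : b * b = b) :
    ∃ Φ : (Cp p → ↥(Ich (⊤ : Subgroup G) b)) ≃ ↥(Ich (bs p G) (el p b)),
      ∀ t, (Φ t).1 = tn fun q => (t q).1 := by
  have hmem : ∀ t : Cp p → ↥(Ich (⊤ : Subgroup G) b),
      (tn fun q => (t q).1) ∈ Ich (bs p G) (el p b) := by
    intro t
    refine ⟨tn_mem_IrrCh fun q => (t q).2.1, ?_⟩
    rw [conv_tn]
    congr 1
    funext q
    exact (t q).2.2
  have hbij : Function.Bijective
      (fun t : Cp p → ↥(Ich (⊤ : Subgroup G) b) =>
        (⟨tn fun q => (t q).1, hmem t⟩ : ↥(Ich (bs p G) (el p b)))) := by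
    constructor
    · intro t t' h
      have h1 : (tn fun q => (t q).1) = tn fun q => (t' q).1 := congrArg Subtype.val h
      have h2 := tn_inj (fun q => (t q).2.1) (fun q => (t' q).2.1) h1
      funext q
      exact Subtype.ext (congrFun h2 q)
    · rintro ⟨η, hη1, hη2⟩
      obtain ⟨χ, hχ, rfl⟩ := exists_tn_of_mem hη1
      have hne : tn χ ≠ 0 :=
        (chi_linearIndependent (k := k) (bs p G)).ne_zero
          (⟨tn χ, tn_mem_IrrCh hχ⟩ : IrrCh k (bs p G))
      have hall : ∀ q, conv b (χ q) = χ q := by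
        intro q
        by_contra hq
        have h0 : conv b (χ q) = 0 :=
          conv_eq_zero_of_ne (N := (⊤ : Subgroup G)) (fun x _ => Subgroup.mem_top x) hb hbb
            (⟨χ q, hχ q⟩ : IrrCh k (⊤ : Subgroup G)) hq
        apply hne
        rw [← hη2, conv_tn]
        funext x
        by_cases hx : x.right = 1
        · rw [tn_of hx]
          refine Finset.prod_eq_zero (Finset.mem_univ q) ?_
          rw [h0]
          rfl
        · rw [tn_not hx]
          rfl
      exact ⟨fun q => ⟨χ q, hχ q, hall q⟩, rfl⟩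
  exact ⟨Equiv.ofBijective _ hbij, fun t => rfl⟩

end Pool.Agent.Lib.P0c8ca5.Wr
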