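import Mathlib
import Pool.Agent.Lib.P0c8ca5O.Defs

/-!
# Ari (0.8 h): arithmetic

PROOF.  `ff_spec`: `p ∣ x ^ p - x` (Fermat: `ZMod.pow_card`, `Int.ModEq.pow_card..`, or `Nat.ModEq`), `x ≤ x ^ p` (`Nat.le_self_pow`).
`arith`: let `P l w` be the hypothesis.  Claim: for all `j`, for all `l, w` with `P l w`: `p ^ j ∣ l - w` (in `ℤ`).  `j = 0` trivial, `j = 1` is the hypothesis for `n = 0`.  Step `j ≥ 1 → j + 1`:
`P (ff p l) (ff p w)` (`Function.iterate_succ_apply`), so `p ^ j ∣ ff p l - ff p w`, so `p ^ (j + 1) ∣ p * (ff p l - ff p w) = (l ^ p - w ^ p) + (p - 1) * (l - w)`.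
Also `p ^ j ∣ l - w`, and `l ^ p - w ^ p = (l - w) * ∑ l ^ i * w ^ (p - 1 - i)`, where the sum is `0` mod `p` because `l = w` mod `p` (`p` terms `l ^ (p - 1)`); for example
`(Commute.all _ _).geom_sum₂_mul` / `geom_sum₂_mul` and `Int.ModEq`, or `dvd_geom_sum₂_self`, `dvd_geom_sum₂_iff_of_dvd_sub`).  So `p ^ (j + 1) ∣ l ^ p - w ^ p`,
hence `p ^ (j + 1) ∣ (p - 1) * (l - w)`, and `p - 1` is prime to `p`: `p ^ (j + 1) ∣ l - w` (`IsCoprime.dvd_of_dvd_mul_left`, `IsCoprime.pow_left`).  All powers of `p` divide `l - w`, so it is `0`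
(`Int.natAbs`, `Nat.lt_pow_self`).
-/

namespace Pool.Agent.Lib.P0c8ca5.Wr

theorem ff_spec {p : ℕ} (hp : p.Prime) (x : ℕ) :
    (p : ℤ) * (ff p x : ℤ) = (x : ℤ) ^ p + ((p : ℤ) - 1) * x := by
  have : Fact p.Prime := ⟨hp⟩
  have hle : x ≤ x ^ p := Nat.le_self_pow hp.ne_zero x
  have hd : p ∣ x ^ p - x := by
    rw [← Nat.modEq_iff_dvd' hle, ← ZMod.natCast_eq_natCast_iff]
    push_cast
    rw [ZMod.pow_card]
  have h1 : p * ff p x = (x ^ p - x) + p * x := by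
    unfold ff
    rw [mul_add, Nat.mul_div_cancel' hd]
  have h2 : ((p * ff p x : ℕ) : ℤ) = ((x ^ p - x + p * x : ℕ) : ℤ) := by rw [h1]
  push_cast [Nat.cast_sub hle] at h2
  rw [h2]
  ring

theorem AriAux.key {p : ℕ} (hp : p.Prime) (j : ℕ) : ∀ l w : ℕ,
    (∀ n : ℕ, (p : ℤ) ∣ (((ff p)^[n] l : ℕ) : ℤ) - (((ff p)^[n] w : ℕ) : ℤ)) →
      (p : ℤ) ^ j ∣ (l : ℤ) - w := by
  induction j with
  | zero =>
    intro l w _
    rw [pow_zero]
    exact one_dvd _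
  | succ j ih =>
    intro l w h
    have h0 : (p : ℤ) ∣ (l : ℤ) - w := h 0
    have h1 : (p : ℤ) ^ j ∣ (l : ℤ) - w := ih l w h
    have h2 : (p : ℤ) ^ j ∣ (ff p l : ℤ) - ff p w := by
      refine ih (ff p l) (ff p w) fun n => ?_
      have := h (n + 1)
      rwa [Function.iterate_succ_apply, Function.iterate_succ_apply] at this
    have h3 : (p : ℤ) ^ (j + 1) ∣ (l : ℤ) ^ p - (w : ℤ) ^ p := by
      rw [← geom_sum₂_mul, pow_succ, mul_comm]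
      exact mul_dvd_mul (dvd_geom_sum₂_self (n := p) (x := (l : ℤ)) (y := (w : ℤ)) h0) h1
    have h4 : (p : ℤ) ^ (j + 1) ∣ (p : ℤ) * ((ff p l : ℤ) - ff p w) := by
      rw [pow_succ, mul_comm]
      exact mul_dvd_mul_left _ h2
    have e : (p : ℤ) * ((ff p l : ℤ) - ff p w) =
        ((l : ℤ) ^ p - (w : ℤ) ^ p) + ((p : ℤ) - 1) * ((l : ℤ) - w) := by
      rw [mul_sub, ff_spec hp, ff_spec hp]
      ring
    rw [e] at h4
    have h5 : (p : ℤ) ^ (j + 1) ∣ ((p : ℤ) - 1) * ((l : ℤ) - w) := (dvd_add_right h3).1 h4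
    have h6 : IsCoprime ((p : ℤ) ^ (j + 1)) ((p : ℤ) - 1) := by
      refine IsCoprime.pow_left ⟨1, -1, ?_⟩
      ring
    exact h6.dvd_of_dvd_mul_left h5

theorem arith {p : ℕ} (hp : p.Prime) (l w : ℕ)
    (h : ∀ n : ℕ, (p : ℤ) ∣ (((ff p)^[n] l : ℕ) : ℤ) - (((ff p)^[n] w : ℕ) : ℤ)) : l = w := by
  set x : ℤ := (l : ℤ) - w with hx
  have h1 : (p : ℤ) ^ x.natAbs ∣ x := AriAux.key hp _ l w h
  have h2 : x = 0 := by
    refine Int.eq_zero_of_abs_lt_dvd h1 ?_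
    have h3 : x.natAbs < p ^ x.natAbs := Nat.lt_pow_self hp.one_lt
    have h4 : |x| = (x.natAbs : ℤ) := Int.abs_eq_natAbs x
    rw [h4]
    exact_mod_cast h3
  omega

end Pool.Agent.Lib.P0c8ca5.Wr
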