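import Mathlib
import Pool.Agent.Lib.P0c8ca5O.Defs

/-!
# CntL (1.2 h): the number of irreducible representations as a number of orbits

PROOF.  `N` is normal with `A/N` a p-group.  `cnt_stX` (P0c8ca5.LHS) with `G := N`, `N := ⊤`, `H := ⊤`: `cnt (stX hinv) ⊤ ⊤ = Nat.card A * Nat.card (Quotient (irrInvSetoid ⊤ ⊤ e))`
(`Nat.card ↥(⊤ : Subgroup A) = Nat.card A`: `Subgroup.card_top`).  By `cnt_def` the left side is `∑ x : IrX N e, Nat.card (stX hinv x)` (`⊤ ⊔ _ = ⊤`), and `stX` is the stabilizer for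
`actX`, so it is `Nat.card A` times the number of orbits of `A` on `IrX N e` (Burnside: e.g. `MulAction.card_orbit_mul_card_stabilizer_eq_card_group` summed over the orbits, or
`MulAction.sum_card_fixedBy_eq_card_orbits_mul_card_group` with `∑ x |stab x| = ∑ a |fix a|`; a lemma of this kind may be in P0c8ca5.Comb/Marks/WeightsC: grep `orbit`).
The orbits of `A` on `IrX N e` correspond to the classes of `chSet N e`: `[ρ] ↦ chi ρ` is a bijection `IrX N e ≃ ↥(Ich N e)` (as in `card_irr_inv`, P0c8ca5N.ChD, with `X = ⊥`: `chi_equiv`,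
`chi_inj`, `conv_chi_of_inBlock`, `conv_chi_of_not`; `mkIrr`), and for `a : A` the character of `a • [ρ] = [tw _ ρ]` is `x ↦ chi ρ (a⁻¹ * x * a)` (`chi_conj` with `isConj_tw` of
P0c8ca5N.ChD, namespace ChDAux).
-/

namespace Pool.Agent.Lib.P0c8ca5.Wr

open MonoidAlgebra

set_option linter.unusedSectionVars false

variable {p : ℕ} [Fact p.Prime] {k : Type*} [Field k] [IsAlgClosed k] [CharP k p] {A : Type*}
  [Group A] [Fintype A]

namespace CntLAux

/-- the character of a representation in the block -/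
noncomputable def chM {N : Subgroup A} {e : MonoidAlgebra k A} (he : SuppIn N e)
    (a : IrrInv N ⊥ e) : ↥(Ich N e) :=
  ⟨chi a.ρ, ⟨a.n, a.ρ, a.irr, rfl⟩, conv_chi_of_inBlock he a.blk⟩

/-- the class of the character of a class of representations -/
noncomputable def chQ {N : Subgroup A} {e : MonoidAlgebra k A} (he : SuppIn N e) :
    IrX N e → Quotient (chSet N e) :=
  Quotient.lift (fun a : IrrInv N ⊥ e => (⟦chM he a⟧ : Quotient (chSet N e)))
    (fun a b hab => by
      have h1 : chM he a = chM he b := Subtype.ext (chi_equiv hab)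
      change (⟦chM he a⟧ : Quotient (chSet N e)) = ⟦chM he b⟧
      rw [h1])

theorem chQ_mk {N : Subgroup A} {e : MonoidAlgebra k A} (he : SuppIn N e) (a : IrrInv N ⊥ e) :
    chQ he ⟦a⟧ = ⟦chM he a⟧ := rfl

theorem chQ_surj {N : Subgroup A} {e : MonoidAlgebra k A} (he : SuppIn N e) (hinv : InvBy ⊤ e)
    (hee : e * e = e) : Function.Surjective (chQ he) := by
  intro c
  induction c using Quotient.inductionOn with
  | _ χ =>
  obtain ⟨f, ⟨n, ρ, hρ, rfl⟩, h1⟩ := χ
  have hb : InBlock e ρ := by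
    by_contra hb
    have h3 := conv_chi_of_not hρ he (hinv.mono le_top) hee hb
    exact ChDAux.chi_ne_zero hρ (h1.symm.trans h3)
  exact ⟨⟦mkIrr ρ (irr_iff.1 hρ) (act_iff.2 hb)⟧, rfl⟩

theorem chi_tw {N : Subgroup A} [N.Normal] {n : ℕ} (ρ : Rp k N n) (a x : A) :
    chi (tw (mem_norm_of_normal N a) ρ) x = chi ρ (a⁻¹ * x * a) := by
  have h1 := chi_conj (mem_norm_of_normal N a)
    (ChDAux.isConj_tw (mem_norm_of_normal N a) ρ) (a⁻¹ * x * a)
  have h2 : a * (a⁻¹ * x * a) * a⁻¹ = x := by group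
  rwa [h2] at h1

end CntLAux

open CntLAux in
theorem cnt_l {N : Subgroup A} [N.Normal] (hp : ∀ x : A, ∃ n : ℕ, x ^ p ^ n ∈ N)
    {e : MonoidAlgebra k A} (he : SuppIn N e) (hinv : InvBy ⊤ e) (hee : e * e = e) :
    lN e = Nat.card (Quotient (chSet N e)) := by
  have : Fintype (IrX N e) := Fintype.ofFinite _
  have h1 := cnt_stX (p := p) (G := N) (N := ⊤) (H := ⊤) le_top le_rfl
    (by rw [Subgroup.normalizer_eq_top]) hp he hinv hee
  have : Finite (Quotient (chSet N e)) := Finite.of_surjective _ (chQ_surj he hinv hee)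
  let _ := actX (G := N) hinv
  have h2 : cnt (stX (G := N) hinv) ⊤ ⊤
      = Nat.card ↥(⊤ : Subgroup A) * Nat.card (Quotient (chSet N e)) := by
    refine cnt_eq (X := IrX N e) (N := ⊤) (H := ⊤) le_rfl
      (by rw [Subgroup.normalizer_eq_top]) (fun x c => chQ he x = c) ?_ ?_ ?_ ?_
    · intro c
      exact chQ_surj he hinv hee c
    · intro x y c hx
      subst hx
      induction x using Quotient.inductionOn with
      | _ σ =>
      induction y using Quotient.inductionOn with
      | _ τ =>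
      constructor
      · intro h
        have h3 : (⟦chM he τ⟧ : Quotient (chSet N e)) = ⟦chM he σ⟧ := h
        obtain ⟨a, ha⟩ := Quotient.exact h3.symm
        refine ⟨a, Subgroup.mem_top a, ?_⟩
        apply mk_eq_mk.2
        change Iso τ.ρ (tw (mem_norm_of_normal N a) σ.ρ)
        apply iso_iff.2
        apply chi_inj τ.irr (irr_iff.2 ((irr_iff.1 σ.irr).tw _))
        funext x
        rw [chi_tw]
        exact ha x
      · rintro ⟨a, -, h⟩
        have h3 : Iso τ.ρ (tw (mem_norm_of_normal N a) σ.ρ) := mk_eq_mk.1 h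
        have h4 : chi τ.ρ = chi (tw (mem_norm_of_normal N a) σ.ρ) := chi_equiv (iso_iff.1 h3)
        change (⟦chM he τ⟧ : Quotient (chSet N e)) = ⟦chM he σ⟧
        symm
        apply Quotient.sound
        refine ⟨a, fun x => ?_⟩
        change chi τ.ρ x = chi σ.ρ (a⁻¹ * x * a)
        rw [h4, chi_tw]
    · intro x c c' h h'
      exact h.symm.trans h'
    · intro x
      constructor
      · intro _
        exact top_sup_eq _
      · intro _
        exact ⟨_, rfl⟩
  rw [h2] at h1
  have h3 : 0 < Nat.card ↥(⊤ : Subgroup A) := Nat.card_pos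
  exact (Nat.eq_of_mul_eq_mul_left h3 h1).symm

end Pool.Agent.Lib.P0c8ca5.Wr
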