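import Mathlib
import Pool.Agent.Lib.P0c8ca5O.Defs

/-!
# CntW (1.2 h): the number of weights as a number of orbits

PROOF.
`gap_lw`: `gap_cnt` (P0c8ca5N.Least) with `G = N = H = ⊤`: `|A| * gap p ⊤ ⊤ e = cnt stX ⊤ ⊤ - cnt stZ ⊤ ⊤`; `cnt_stX` (P0c8ca5.LHS): `cnt stX ⊤ ⊤ = |A| * lN e`; `cnt_stZ` (P0c8ca5.WtEquiv):
`cnt stZ ⊤ ⊤ = |A| * wN p e`.  Divide by `|A|`.  (`he.invBy : InvBy ⊤ e`; `hp` is trivial for `⊤`; `Subgroup.card_top`; `Fintype` instances from `Fintype.ofFinite`, `finite_Wt`, as in the proof of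
`gap_section` in P0c8ca5N.Least.)
`cnt_w`: the same three theorems with `G := N`, `N := ⊤`, `H := ⊤` give `|A| * gap p ⊤ ⊤ e = |A| * lN e - |A| * Nat.card (invClasses p N e ⊤ ⊤)`, so with `gap_lw` (and `isBlock_up`: `IsBlock ⊤ e`)
`wN p e = Nat.card (invClasses p N e ⊤ ⊤)`.  The set `invClasses p N e ⊤ ⊤` of classes of `wtSetoid p N e ⊤` is everything: if `WConj h w w'` then `w, w'` are in the same class
(`WSame ⊤ w w'`).  Finally `Quotient (wtSetoid p N e ⊤) ≃ Quotient (wtO p N e)` by `toY` (`toY_bij`, `wConj_iff`, P0c8ca5.WtMain; `Quotient.congr` with `Equiv.ofBijective`).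
-/

namespace Pool.Agent.Lib.P0c8ca5.Wr

open MonoidAlgebra

set_option linter.unusedSectionVars false

variable {p : ℕ} [Fact p.Prime] {k : Type*} [Field k] [IsAlgClosed k] [CharP k p] {A : Type*}
  [Group A] [Fintype A]

private theorem gap_aux {N : Subgroup A} [N.Normal] (hp : ∀ x : A, ∃ n : ℕ, x ^ p ^ n ∈ N)
    {e : MonoidAlgebra k A} (he : IsBlock N e) (hinv : InvBy ⊤ e) :
    gap p (⊤ : Subgroup A) ⊤ e
      = (lN e : ℚ) - (Nat.card ↥(invClasses p N e ⊤ ⊤) : ℚ) := by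
  classical
  have hfinW : Finite (Wt p N e) := finite_Wt he hinv
  have : Finite (IrX N e) := inferInstance
  have : Fintype (IrX N e) := Fintype.ofFinite _
  have : Fintype (WtC p N e) := Fintype.ofFinite _
  have hn : (⊤ : Subgroup A) ≤ Subgroup.normalizer ((⊤ : Subgroup A) : Set A) :=
    fun x _ => mem_norm_of_normal ⊤ x
  have h1 := gap_cnt (p := p) (G := N) (N := ⊤) (H := ⊤) le_top (le_refl _) hn hp he hinv
  rw [cnt_stX (p := p) le_top (le_refl _) hn hp he.suppIn hinv he.idem,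
    cnt_stZ le_top (le_refl _) hn he hinv] at h1
  have hpos : (Nat.card (⊤ : Subgroup A) : ℚ) ≠ 0 := by
    exact_mod_cast (Nat.card_pos (α := (⊤ : Subgroup A))).ne'
  apply mul_left_cancel₀ hpos
  rw [h1]
  push_cast
  unfold lN
  ring

theorem gap_lw {e : MonoidAlgebra k A} (he : IsBlock (⊤ : Subgroup A) e) :
    gap p (⊤ : Subgroup A) ⊤ e = (lN e : ℚ) - (wN p e : ℚ) :=
  gap_aux (fun x => ⟨0, Subgroup.mem_top _⟩) he he.invBy

theorem cnt_w {N : Subgroup A} [N.Normal] (hp : ∀ x : A, ∃ n : ℕ, x ^ p ^ n ∈ N)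
    {e : MonoidAlgebra k A} (he : IsBlock N e) (hinv : InvBy ⊤ e) :
    wN p e = Nat.card (Quotient (wtO p N e)) := by
  classical
  have h1 := gap_aux hp he hinv
  have h2 := gap_lw (p := p) (isBlock_up le_top hp he hinv)
  have h3 : wN p e = Nat.card ↥(invClasses p N e ⊤ ⊤) := by
    have h4 : (wN p e : ℚ) = (Nat.card ↥(invClasses p N e ⊤ ⊤) : ℚ) := by linarith
    exact_mod_cast h4
  rw [h3]
  have h5 : invClasses p N e ⊤ ⊤ = Set.univ := by
    apply Set.eq_univ_of_forall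
    intro c h hh w w' hw hww
    rw [← hw]
    exact Quotient.sound (WSame.symm ⟨h, hh, hww⟩)
  rw [h5, Nat.card_congr (Equiv.Set.univ _)]
  refine Nat.card_congr (Quotient.congr (Equiv.ofBijective _ (toY_bij (p := p) he)) ?_)
  intro w w'
  constructor
  · rintro ⟨a, _, ha⟩
    exact ⟨a, (wConj_iff he hinv a w w').1 ha⟩
  · rintro ⟨a, ha⟩
    exact ⟨a, Subgroup.mem_top a, (wConj_iff he hinv a w w').2 ha⟩

end Pool.Agent.Lib.P0c8ca5.Wr
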