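import Mathlib
import Pool.Agent.Lib.P0c8ca5O.Defs

/-!
# OrbC (1.2 h): the number of orbits of the wreath product on functions

PROOF.  Let `X = Quotient rY`, a finite set with `x` elements.  (1) `Quotient rZ ≃ Quotient s` for the relation `s` on `Cp p → X`: `s u u' ↔ ∃ c, ∀ q, u' q = u (c⁻¹ * q)`: the map
`t ↦ fun q => ⟦t q⟧` is onto, and `rZ (Φ t) (Φ t')` iff the images are related (`→` is clear; for `←` choose `g q` with `t' q = g q • t (c⁻¹ * q)` and take
`a = ⟨g, c⟩`).  (2) `s` is the orbit relation of the action of `Cp p` on `Cp p → X`, `(c • u) q = u (c⁻¹ * q)` (define the action locally, `letI`).  Burnside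
(`MulAction.sum_card_fixedBy_eq_card_orbits_mul_card_group`): the number `o` of orbits satisfies `x ^ p + (p - 1) * x = o * p`: the identity fixes everything, and a `u` fixed by
`c ≠ 1` is constant (`c` generates `Cp p`: `c = ofAdd m`, `m ≠ 0` in `ZMod p`; `q = c ^ j * q'` with `j = (q - q') / m`; `ZMod p` is a field).  Hence `o = (x ^ p - x) / p + x = ff p x`
(`x ≤ x ^ p`; `x ^ p - x + p * x = o * p`; `Nat.div_eq_of_eq_mul_left`, `omega`/`Nat.sub_add_cancel`).
-/

namespace Pool.Agent.Lib.P0c8ca5.Wr

set_option linter.unusedSectionVars false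

variable {p : ℕ} [Fact p.Prime] {G : Type*} [Group G]

namespace OrbCAux

omit [Group G] in
theorem fix_const [MulAction (Cp p) (Cp p → G)]
    (hact : ∀ (c : Cp p) (u : Cp p → G) (q : Cp p), (c • u) q = u (c⁻¹ * q))
    {c : Cp p} (hc : c ≠ 1) {u : Cp p → G} (h : c • u = u) (q : Cp p) : u q = u 1 := by
  have hcard : Nat.card (Cp p) = p := by
    rw [Nat.card_eq_fintype_card, Fintype.card_multiplicative, ZMod.card]
  have h1 : q⁻¹ ∈ MulAction.stabilizer (Cp p) u := by
    have h2 : q⁻¹ ∈ Subgroup.zpowers c := mem_zpowers_of_prime_card hcard hc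
    have h3 : Subgroup.zpowers c ≤ MulAction.stabilizer (Cp p) u :=
      (Subgroup.zpowers_le).2 h
    exact h3 h2
  have h4 := congrFun (MulAction.mem_stabilizer_iff.1 h1) 1
  rw [hact, inv_inv, mul_one] at h4
  exact h4

theorem orb_fun (X : Type*) [Finite X] [MulAction (Cp p) (Cp p → X)]
    (hact : ∀ (c : Cp p) (u : Cp p → X) (q : Cp p), (c • u) q = u (c⁻¹ * q)) :
    Nat.card (Quotient (MulAction.orbitRel (Cp p) (Cp p → X))) = ff p (Nat.card X) := by
  classical
  have : Fintype X := Fintype.ofFinite X
  have hp : 0 < p := (Fact.out : p.Prime).pos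
  have hcp : Fintype.card (Cp p) = p := by
    rw [Fintype.card_multiplicative, ZMod.card]
  have hfix : ∀ c : Cp p, Fintype.card (MulAction.fixedBy (Cp p → X) c) =
      if c = 1 then Fintype.card X ^ p else Fintype.card X := by
    intro c
    split_ifs with hc
    · subst hc
      have h1 : Fintype.card (MulAction.fixedBy (Cp p → X) (1 : Cp p)) =
          Fintype.card (Cp p → X) := by
        rw [← Nat.card_eq_fintype_card, ← Nat.card_eq_fintype_card]
        exact Nat.card_congr (Equiv.subtypeUnivEquiv fun u => one_smul _ u)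
      rw [h1, Fintype.card_fun, hcp]
    · rw [← Nat.card_eq_fintype_card, ← Nat.card_eq_fintype_card]
      refine Nat.card_congr
        { toFun := fun u => u.1 1
          invFun := fun x => ⟨fun _ => x, ?_⟩
          left_inv := ?_
          right_inv := fun x => rfl }
      · change c • (fun _ : Cp p => x) = fun _ => x
        funext q
        rw [hact]
      · intro u
        apply Subtype.ext
        funext q
        exact (fix_const hact hc u.2 q).symm
  have hB := MulAction.sum_card_fixedBy_eq_card_orbits_mul_card_group (Cp p) (Cp p → X)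
  simp only [hfix] at hB
  rw [Fintype.sum_eq_add_sum_compl 1, if_pos rfl] at hB
  have h2 : ∑ c ∈ ({1} : Finset (Cp p))ᶜ, (if c = 1 then Fintype.card X ^ p else Fintype.card X)
      = (p - 1) * Fintype.card X := by
    rw [Finset.sum_congr rfl (g := fun _ => Fintype.card X), Finset.sum_const, Finset.card_compl,
      Finset.card_singleton, hcp, smul_eq_mul]
    intro c hc
    rw [Finset.mem_compl, Finset.mem_singleton] at hc
    exact if_neg hc
  rw [h2, hcp] at hB
  rw [← Nat.card_eq_fintype_card, ← Nat.card_eq_fintype_card] at hB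
  set o := Nat.card (Quotient (MulAction.orbitRel (Cp p) (Cp p → X))) with ho
  set x := Nat.card X with hx
  have hxp : x ≤ x ^ p := Nat.le_self_pow hp.ne' x
  have h3 : o * p = (x ^ p - x) + x * p := by
    have h4 : (p - 1) * x + x = x * p := by
      rw [← Nat.succ_mul, Nat.succ_eq_add_one, Nat.sub_add_cancel hp, mul_comm]
    have h5 : o * p = x ^ p + (p - 1) * x := hB.symm
    omega
  unfold ff
  have h6 : o = ((x ^ p - x) + x * p) / p := by
    rw [← h3, Nat.mul_div_cancel _ hp]
  rw [h6, Nat.add_mul_div_right _ _ hp]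

end OrbCAux

theorem orb_card {Y Z : Type*} [Finite Y] [MulAction G Y] (rY : Setoid Y) (rZ : Setoid Z)
    (hY : ∀ y y', rY y y' ↔ ∃ g : G, y' = g • y) (Φ : (Cp p → Y) ≃ Z)
    (hZ : ∀ t t', rZ (Φ t) (Φ t') ↔
      ∃ a : WG p G, ∀ q, t' q = a.left q • t (a.right⁻¹ * q)) :
    Nat.card (Quotient rZ) = ff p (Nat.card (Quotient rY)) := by
  classical
  let act : MulAction (Cp p) (Cp p → Quotient rY) :=
    { smul := fun c u q => u (c⁻¹ * q)
      one_smul := fun u => by
        funext q
        change u (1⁻¹ * q) = u q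
        rw [inv_one, one_mul]
      mul_smul := fun a b u => by
        funext q
        change u ((a * b)⁻¹ * q) = u (b⁻¹ * (a⁻¹ * q))
        rw [mul_inv_rev, mul_assoc] }
  have hact : ∀ (c : Cp p) (u : Cp p → Quotient rY) (q : Cp p), (c • u) q = u (c⁻¹ * q) :=
    fun c u q => rfl
  rw [← OrbCAux.orb_fun (Quotient rY) hact]
  let F : Z → Quotient (MulAction.orbitRel (Cp p) (Cp p → Quotient rY)) := fun z =>
    Quotient.mk _ (fun q => (Quotient.mk rY (Φ.symm z q)))
  have hF : ∀ z z', F z = F z' ↔ rZ z z' := by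
    intro z z'
    obtain ⟨t, rfl⟩ := Φ.surjective z
    obtain ⟨t', rfl⟩ := Φ.surjective z'
    rw [hZ, eq_comm]
    simp only [F, Φ.symm_apply_apply]
    rw [Quotient.eq, MulAction.orbitRel_apply]
    constructor
    · rintro ⟨c, hc⟩
      have h1 : ∀ q, ∃ g : G, t' q = g • t (c⁻¹ * q) := by
        intro q
        have h2 := congrFun hc q
        simp only [hact] at h2
        exact (hY _ _).1 (Quotient.exact h2)
      choose g hg using h1
      exact ⟨⟨g, c⟩, fun q => hg q⟩
    · rintro ⟨a, ha⟩
      refine ⟨a.right, ?_⟩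
      funext q
      simp only [hact]
      exact Quotient.sound ((hY _ _).2 ⟨a.left q, ha q⟩)
  have hsurj : Function.Surjective F := by
    intro y
    obtain ⟨u, rfl⟩ := Quotient.exists_rep y
    have h1 : ∀ q, ∃ t : Y, Quotient.mk rY t = u q := fun q => Quotient.exists_rep (u q)
    choose t ht using h1
    refine ⟨Φ t, ?_⟩
    simp only [F, Φ.symm_apply_apply]
    congr 1
    funext q
    exact ht q
  exact Nat.card_eq_of_bijective
    (Quotient.lift F fun z z' h => (hF z z').2 h)
    ⟨by
      intro y y'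
      obtain ⟨z, rfl⟩ := Quotient.exists_rep y
      obtain ⟨z', rfl⟩ := Quotient.exists_rep y'
      intro h
      exact Quotient.sound ((hF z z').1 h), by
      intro y
      obtain ⟨z, hz⟩ := hsurj y
      exact ⟨Quotient.mk _ z, hz⟩⟩

end Pool.Agent.Lib.P0c8ca5.Wr
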