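import Mathlib
import Pool.Agent.Lib.P0c8ca5O.PiB

/-!
# PiD (0.8 h): the blocks of defect zero of a finite direct product

`IsDZ p K e` (P0c8ca5.Trace): `e` is a block of `kK` and a p-subgroup `P ≤ K` with `HasBr P e` (`∃ x ∈ centralizer P, e.coeff x ≠ 0`) is `⊥`.
PROOF.
`isDZ_pt`: block by `isBlock_pt`. Let `P` be a p-subgroup of the product, `x` centralizes `P`, `(pt f).coeff x ≠ 0`, so `(f i).coeff (x i) ≠ 0` for all
`i` (`Finset.prod_ne_zero_iff`). The image `P i` of `P` under the projection `Pi.evalMonoidHom _ i` is a p-group centralized by `x i`, so `P i = ⊥` for all `i`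
and `P = ⊥`.
`exists_pt_of_isDZ`: `exists_pt_of_isBlock` gives blocks `f i` with `F = pt f`. Let `P i ≤ H i` be a p-subgroup, `y` in its centralizer, `(f i).coeff y ≠ 0`.
Choose `x j` with `(f j).coeff (x j) ≠ 0` for all `j` (`f j ≠ 0`) and put `x' = Function.update x i y`. The image of `P i` under `MonoidHom.mulSingle H i` is a
p-group centralized by `x'`, and `(pt f).coeff x' ≠ 0`, so it is `⊥` and `P i = ⊥` (`MonoidHom.mulSingle` is injective).
-/

namespace Pool.Agent.Lib.P0c8ca5.Wr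

open MonoidAlgebra

set_option linter.unusedSectionVars false

variable {p : ℕ} {k : Type*} [Field k] [IsAlgClosed k] {ι : Type*} [Fintype ι] [DecidableEq ι]
  {H : ι → Type*} [∀ i, Group (H i)] [∀ i, Finite (H i)]

theorem isDZ_pt {f : ∀ i, MonoidAlgebra k (H i)}
    (h : ∀ i, IsDZ p (⊤ : Subgroup (H i)) (f i)) : IsDZ p (⊤ : Subgroup (∀ i, H i)) (pt f) := by
  refine ⟨isBlock_pt fun i => (h i).1, ?_⟩
  intro P _ hP hbr
  obtain ⟨x, hx, hc⟩ := hbr
  rw [coeff_pt, Finset.prod_ne_zero_iff] at hc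
  rw [Subgroup.eq_bot_iff_forall]
  intro y hy
  funext i
  have h1 : P.map (Pi.evalMonoidHom H i) = ⊥ := by
    refine (h i).2 _ le_top (hP.map _) ⟨x i, ?_, hc i (Finset.mem_univ i)⟩
    rw [Subgroup.mem_centralizer_iff]
    rintro _ ⟨z, hz, rfl⟩
    have h2 := (Subgroup.mem_centralizer_iff.1 hx) z hz
    exact congrFun h2 i
  have h3 : y i ∈ P.map (Pi.evalMonoidHom H i) := ⟨y, hy, rfl⟩
  rw [h1, Subgroup.mem_bot] at h3
  exact h3

theorem exists_pt_of_isDZ {F : MonoidAlgebra k (∀ i, H i)}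
    (hF : IsDZ p (⊤ : Subgroup (∀ i, H i)) F) :
    ∃ f : ∀ i, MonoidAlgebra k (H i), (∀ i, IsDZ p (⊤ : Subgroup (H i)) (f i)) ∧ F = pt f := by
  obtain ⟨f, hf, rfl⟩ := exists_pt_of_isBlock hF.1
  refine ⟨f, fun i => ⟨hf i, ?_⟩, rfl⟩
  intro P _ hP hbr
  obtain ⟨y, hy, hc⟩ := hbr
  have hne : ∀ j, ∃ x : H j, (f j).coeff x ≠ 0 := by
    intro j
    by_contra h
    push Not at h
    apply (hf j).ne_zero
    ext x
    exact h x
  choose x hx using hne
  have h1 : P.map (MonoidHom.mulSingle H i) = ⊥ := by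
    refine hF.2 _ le_top (hP.map _) ⟨Function.update x i y, ?_, ?_⟩
    · rw [Subgroup.mem_centralizer_iff]
      rintro _ ⟨z, hz, rfl⟩
      have h2 := (Subgroup.mem_centralizer_iff.1 hy) z hz
      funext j
      by_cases hj : j = i
      · subst hj
        simp only [MonoidHom.mulSingle_apply, Pi.mul_apply, Pi.mulSingle_eq_same,
          Function.update_self]
        exact h2
      · simp only [MonoidHom.mulSingle_apply, Pi.mul_apply, Pi.mulSingle_eq_of_ne hj, one_mul,
          mul_one]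
    · rw [coeff_pt, Finset.prod_ne_zero_iff]
      intro j _
      by_cases hj : j = i
      · subst hj
        rw [Function.update_self]
        exact hc
      · rw [Function.update_of_ne hj]
        exact hx j
  rw [Subgroup.eq_bot_iff_forall]
  intro z hz
  have h3 : MonoidHom.mulSingle H i z ∈ P.map (MonoidHom.mulSingle H i) := ⟨z, hz, rfl⟩
  rw [h1, Subgroup.mem_bot] at h3
  have h4 := congrFun h3 i
  simpa only [MonoidHom.mulSingle_apply, Pi.mulSingle_eq_same, Pi.one_apply] using h4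

end Pool.Agent.Lib.P0c8ca5.Wr
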