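import Mathlib
import Pool.Agent.Lib.P0c8ca5O.Act

/-!
# RadW (1.2 h): the radical p-subgroups of the base group are products

PROOF.  For `q : Cp p` let `R q` be the image of `S` under the `q`-th projection of the base group (the homomorphism `bs p G →* G`, `x ↦ x.left q`; e.g.
`(S.subgroupOf (bs p G)).map (ev q)`, or the set `{y | ∃ x ∈ S, x.left q = y}`).  `S ≤ ps R`, the `R q` are p-groups (`IsPGroup.map`), `ps R` is a p-group (for `x ∈ ps R` take
`n` large enough for all components: `x ^ p ^ n = 1`; `(x ^ m).left q = (x.left q) ^ m` for `x.right = 1`).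
`H := bs p G ⊓ normalizer S`: `sec (bs p G) S = sec H S` (`sec_inf_normalizer`).  `Q := ps R ⊓ normalizer S` is a p-group, `Q ≤ H`, and `H` normalizes `Q`: an `x ∈ H` normalizes `S`,
so `x.left q` normalizes `R q` for all `q` and `x` normalizes `ps R`.  `radical` (P0c8ca5N.Rad) with `(H, Q, R) := (H, Q, S)` gives `Q ≤ S`.  If `S ≠ ps R`,
`exists_norm_growth` (used in the proof of `radical`) gives an element of `ps R` that normalizes `S` and is not in `S`, a contradiction.
-/

namespace Pool.Agent.Lib.P0c8ca5.Wr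

open MonoidAlgebra

set_option linter.unusedSectionVars false

variable {p : ℕ} [Fact p.Prime] {k : Type*} [Field k] [CharP k p] {G : Type*} [Group G]
  [Finite G]

namespace RadWAux


theorem left_mul (a b : WG p G) (ha : a.right = 1) (q : Cp p) :
    (a * b).left q = a.left q * b.left q := by
  rw [RegularWreathProduct.mul_left, Pi.mul_apply, ha, inv_one, one_mul]

/-- the projections of the base group -/
def ev (p : ℕ) [Fact p.Prime] (G : Type*) [Group G] [Finite G] (q : Cp p) : ↥(bs p G) →* G where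
  toFun x := x.1.left q
  map_one' := rfl
  map_mul' a b := left_mul a.1 b.1 (mem_bs.1 a.2) q


theorem left_pow (x : WG p G) (hx : x.right = 1) (q : Cp p) (m : ℕ) :
    (x ^ m).left q = x.left q ^ m :=
  map_pow (ev p G q) ⟨x, mem_bs.2 hx⟩ m


theorem right_pow (x : WG p G) (hx : x.right = 1) (m : ℕ) : (x ^ m).right = 1 := by
  have h1 : (x ^ m).right = x.right ^ m :=
    map_pow (RegularWreathProduct.rightHom : WG p G →* Cp p) x m
  rw [h1, hx, one_pow]

end RadWAux

/-- products of p-groups are p-groups -/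
theorem isPGroup_ps {R : Cp p → Subgroup G} (h : ∀ q, IsPGroup p (R q)) : IsPGroup p (ps R) := by
  rintro ⟨x, hx⟩
  have h1 : ∀ q, ∃ n : ℕ, (x.left q) ^ p ^ n = 1 := by
    intro q
    obtain ⟨n, hn⟩ := h q ⟨x.left q, hx.2 q⟩
    exact ⟨n, congrArg Subtype.val hn⟩
  choose n hn using h1
  refine ⟨∑ q, n q, Subtype.ext ?_⟩
  change x ^ p ^ (∑ q, n q) = 1
  refine RegularWreathProduct.ext (funext fun q => ?_) (RadWAux.right_pow x hx.1 _)
  rw [RadWAux.left_pow x hx.1]
  have h2 : n q ≤ ∑ q, n q := Finset.single_le_sum (fun _ _ => Nat.zero_le _) (Finset.mem_univ q)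
  obtain ⟨m, hm⟩ := Nat.exists_eq_add_of_le h2
  rw [hm, pow_add, pow_mul, hn, one_pow]
  rfl

theorem isPGroup_of_ps {R : Cp p → Subgroup G} (h : IsPGroup p (ps R)) (q : Cp p) :
    IsPGroup p (R q) := by
  classical
  rintro ⟨y, hy⟩
  have hx : (⟨fun q' => if q' = q then y else 1, 1⟩ : WG p G) ∈ ps R := by
    refine ⟨rfl, fun q' => ?_⟩
    change (if q' = q then y else 1) ∈ R q'
    split_ifs with h1
    · rw [h1]; exact hy
    · exact (R q').one_mem
  obtain ⟨n, hn⟩ := h ⟨_, hx⟩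
  refine ⟨n, Subtype.ext ?_⟩
  have h1 := congrArg (fun z : ↥(ps R) => z.1.left q) hn
  change ((⟨fun q' => if q' = q then y else 1, 1⟩ : WG p G) ^ p ^ n).left q = 1 at h1
  rw [RadWAux.left_pow _ rfl] at h1
  change (if q = q then y else 1) ^ p ^ n = 1 at h1
  rw [if_pos rfl] at h1
  exact h1

theorem exists_ps_of_isDZ {S : Subgroup (WG p G)} (hS : S ≤ bs p G) (hpS : IsPGroup p S)
    {Φ : MonoidAlgebra k (NQ S)} (hΦ : IsDZ p (sec (bs p G) S) Φ) :
    ∃ R : Cp p → Subgroup G, S = ps R := by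
  classical
  have : Fintype (WG p G) := Fintype.ofFinite _
  set R : Cp p → Subgroup G := fun q => (S.subgroupOf (bs p G)).map (RadWAux.ev p G q) with hR
  have hmem : ∀ q (y : G), y ∈ R q ↔ ∃ s ∈ S, s.left q = y := by
    intro q y
    constructor
    · rintro ⟨⟨s, hs⟩, hs', rfl⟩
      exact ⟨s, hs', rfl⟩
    · rintro ⟨s, hs, rfl⟩
      exact ⟨⟨s, hS hs⟩, hs, rfl⟩
  have hSR : S ≤ ps R := fun x hx =>
    ⟨mem_bs.1 (hS hx), fun q => (hmem q _).2 ⟨x, hx, rfl⟩⟩
  have hpR : IsPGroup p (ps R) := isPGroup_ps fun q =>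
    IsPGroup.map (IsPGroup.comap_subtype hpS) _
  refine ⟨R, ?_⟩
  by_contra hne
  obtain ⟨x, hx, hxN, hxS⟩ := exists_norm_growth hpR hSR hne
  have key : ∀ x ∈ bs p G ⊓ Subgroup.normalizer (S : Set (WG p G)),
      ∀ y ∈ ps R ⊓ Subgroup.normalizer (S : Set (WG p G)),
      x * y * x⁻¹ ∈ ps R ⊓ Subgroup.normalizer (S : Set (WG p G)) := by
    rintro x ⟨hx1, hx2⟩ y ⟨hy1, hy2⟩
    have hxr : x.right = 1 := mem_bs.1 hx1
    have hxy : ∀ z : WG p G, z.right = 1 → ∀ q, (x * z * x⁻¹).left q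
        = x.left q * z.left q * (x⁻¹).left q := by
      intro z hz q
      have h1 : (x * z).right = 1 := by
        rw [RegularWreathProduct.mul_right, hxr, hz, one_mul]
      rw [RadWAux.left_mul _ _ h1, RadWAux.left_mul _ _ hxr]
    refine ⟨⟨?_, fun q => ?_⟩, ?_⟩
    · exact mem_bs.1 ((bs p G).mul_mem ((bs p G).mul_mem hx1 (ps_le R hy1)) ((bs p G).inv_mem hx1))
    · obtain ⟨s, hs, hsq⟩ := (hmem q _).1 (hy1.2 q)
      rw [hmem]
      refine ⟨x * s * x⁻¹, (Subgroup.mem_normalizer_iff.1 hx2 s).1 hs, ?_⟩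
      rw [hxy s (mem_bs.1 (hS hs)), hxy y hy1.1, hsq]
    · exact (Subgroup.normalizer (S : Set (WG p G))).mul_mem
        ((Subgroup.normalizer (S : Set (WG p G))).mul_mem hx2 hy2)
        ((Subgroup.normalizer (S : Set (WG p G))).inv_mem hx2)
  have hQ : ps R ⊓ Subgroup.normalizer (S : Set (WG p G)) ≤ S := by
    refine radical (H := bs p G ⊓ Subgroup.normalizer (S : Set (WG p G))) (f := Φ)
      (inf_le_inf_right _ (ps_le R)) ?_ (hpR.to_le inf_le_left)
      (le_inf hS Subgroup.le_normalizer) hpS ?_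
    · intro x hx
      rw [Subgroup.mem_normalizer_iff]
      intro y
      constructor
      · exact key x hx y
      · intro h1
        have h2 := key x⁻¹ (Subgroup.inv_mem _ hx) _ h1
        have e1 : x⁻¹ * (x * y * x⁻¹) * x⁻¹⁻¹ = y := by group
        rwa [e1] at h2
    · rw [sec_inf_normalizer]
      exact hΦ
  exact hxS (hQ ⟨hx, hxN⟩)

end Pool.Agent.Lib.P0c8ca5.Wr
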