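import Mathlib
import Pool.Agent.Lib.P0c8ca5O.Act
import Pool.Agent.Lib.P0c8ca5O.PiA

/-!
# SecW (1.5 h): the sections of the base group at a product of subgroups

`sec H R` (P0c8ca5.Defs) = image of `N_H(R)` in `NQ R = N_A(R)/R`; `qm R x hx` = class of `x`; `mem_sec`, `qm_eq_iff`, `qm_surj` (P0c8ca5.Sect).
For `x` in the base group `x` normalizes `ps R` iff `x.left q` normalizes `R q` for all `q`.
PROOF.
`mem_norm_ps`: `Subgroup.mem_normalizer_iff`; for `x.right = 1`: `(x * y * x⁻¹).left q = x.left q * y.left q * (x.left q)⁻¹` (`conj_left` with `a = x⁻¹`, or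
`RegularWreathProduct.mul_left`). For `→` test with the `y` that has one component `y.left q = z` (`Function.update 1 q z` / `Pi.mulSingle`) and the others `1`.
`exists_secEquiv`: `exists_iso_of_ker` (P0c8ca5.Transport) with `K₀ = ↥(bs p G ⊓ normalizer (ps R))`, `α x = fun q => qm (R q) (x.left q) _`
(a homomorphism to `∀ q, NQ (R q)`, surjective because `qm` is surjective and any family of elements `n q` of the normalizers is an element of the base group),
`β x = qm (ps R) x _`, with range `sec (bs p G) (ps R)`; both are trivial exactly on `ps R` (`qm_eq_one_iff`).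
`coeff_tr_pt`: `coeff_tr` and `coeff_pt`.
`infl_tr_pt`: `infl` (P0c8ca5.Act) at `x`: if `x` is in the base group and normalizes `ps R`: `coeff_tr_pt` and `tn_of`. If `x` is in the base group and does not normalize
`ps R`: some `x.left q` does not normalize `R q`, both sides are `0`. If `x` is not in the base group: the right side is `0` (`tn_not`), the left side is `0` since
`tr ψ _` is supported in `sec (bs p G) (ps R)` (`coeff_tr_of_notMem`; `qm_mem_sec_iff` with `ps_le`).
`proj_el`: coefficients: `coeff_proj` (P0c8ca5.Sect): `(proj R a).coeff (qm R n _) = ∑ x, if n⁻¹ * x ∈ R then a.coeff x else 0`. At `qm (ps R) x` with `x` in the base group it is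
`∏ q, ∑ y, if (x.left q)⁻¹ * y ∈ R q then b.coeff y else 0` (`Finset.prod_univ_sum`, the sum over `WG p G` reduces to the base group, `RegularWreathProduct.equivProd`);
outside `sec (bs p G) (ps R)` both sides are `0` (if `n⁻¹ * x ∈ ps R` and `x` in the base group then `n` in the base group).
-/

namespace Pool.Agent.Lib.P0c8ca5.Wr

open MonoidAlgebra

set_option linter.unusedSectionVars false

variable {p : ℕ} {k : Type*} [Field k] {G : Type*} [Group G]

namespace SecWAux

theorem mul_left' {x : WG p G} (hx : x.right = 1) (y : WG p G) (q : Cp p) :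
    (x * y).left q = x.left q * y.left q := by
  change x.left q * y.left (x.right⁻¹ * q) = _
  rw [hx, inv_one, one_mul]

theorem inv_left' {x : WG p G} (hx : x.right = 1) (q : Cp p) :
    (x⁻¹).left q = (x.left q)⁻¹ := by
  change (x.left (x.right * q))⁻¹ = _
  rw [hx, one_mul]

theorem inv_right' {x : WG p G} (hx : x.right = 1) : (x⁻¹).right = 1 := by
  rw [RegularWreathProduct.inv_right, hx, inv_one]

theorem conj_left' {x y : WG p G} (hx : x.right = 1) (hy : y.right = 1) (q : Cp p) :
    (x * y * x⁻¹).left q = x.left q * y.left q * (x.left q)⁻¹ := by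
  have h1 : (x * y).right = 1 := by rw [RegularWreathProduct.mul_right, hx, hy, one_mul]
  rw [mul_left' h1, mul_left' hx, inv_left' hx]

theorem conj_right' {x y : WG p G} (hx : x.right = 1) : (x * y * x⁻¹).right = y.right := by
  rw [RegularWreathProduct.mul_right, RegularWreathProduct.mul_right, inv_right' hx, hx, one_mul,
    mul_one]

theorem qm_congr {A : Type*} [Group A] {R : Subgroup A} {x y : A} (h : x = y)
    (hx : x ∈ Subgroup.normalizer (R : Set A)) (hy : y ∈ Subgroup.normalizer (R : Set A)) :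
    qm R x hx = qm R y hy := by
  subst h
  rfl

theorem inv_mul_mem {R : Cp p → Subgroup G} {n : WG p G} (hn : n.right = 1) (y : Cp p → G) :
    n⁻¹ * (⟨y, 1⟩ : WG p G) ∈ ps R ↔ ∀ q, (n.left q)⁻¹ * y q ∈ R q := by
  rw [mem_ps]
  have h1 : (n⁻¹ * (⟨y, 1⟩ : WG p G)).right = 1 := by
    rw [RegularWreathProduct.mul_right, inv_right' hn, one_mul]
  have h2 : ∀ q, (n⁻¹ * (⟨y, 1⟩ : WG p G)).left q = (n.left q)⁻¹ * y q := fun q => by
    rw [mul_left' (inv_right' hn), inv_left' hn]
  constructor
  · rintro ⟨_, h⟩ q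
    rw [← h2]
    exact h q
  · intro h
    refine ⟨h1, fun q => ?_⟩
    rw [h2]
    exact h q

end SecWAux

open SecWAux

theorem mem_norm_ps {R : Cp p → Subgroup G} {x : WG p G} (hx : x.right = 1) :
    x ∈ Subgroup.normalizer (ps R : Set (WG p G)) ↔
      ∀ q, x.left q ∈ Subgroup.normalizer (R q : Set G) := by
  classical
  rw [Subgroup.mem_normalizer_iff]
  constructor
  · intro h q
    rw [Subgroup.mem_normalizer_iff]
    intro z
    have h1 : ∀ w : Cp p → G, (∀ q', q' ≠ q → w q' = 1) → ((⟨w, 1⟩ : WG p G) ∈ ps R ↔ w q ∈ R q) := by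
      intro w hw
      rw [mem_ps]
      constructor
      · rintro ⟨_, h2⟩
        exact h2 q
      · intro h2
        refine ⟨rfl, fun q' => ?_⟩
        by_cases hq : q' = q
        · subst hq
          exact h2
        · change w q' ∈ R q'
          rw [hw q' hq]
          exact (R q').one_mem
    have h2 := h (⟨Function.update 1 q z, 1⟩ : WG p G)
    have h3 : x * (⟨Function.update 1 q z, 1⟩ : WG p G) * x⁻¹
        = (⟨fun q' => x.left q' * (Function.update 1 q z : Cp p → G) q' * (x.left q')⁻¹, 1⟩ :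
          WG p G) := by
      apply RegularWreathProduct.ext
      · funext q'
        rw [conj_left' hx rfl]
      · rw [conj_right' hx]
    rw [h3, h1 _ fun q' hq => by rw [Function.update_of_ne hq, Pi.one_apply],
      h1 _ fun q' hq => by rw [Function.update_of_ne hq, Pi.one_apply, mul_one, mul_inv_cancel],
      Function.update_self] at h2
    exact h2
  · intro h y
    rw [mem_ps, mem_ps, conj_right' hx]
    refine and_congr_right fun hy => forall_congr' fun q => ?_
    rw [conj_left' hx hy]
    exact (Subgroup.mem_normalizer_iff.1 (h q)) _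

/-- `ψ` identifies the product of the groups `N(R q)/R q` with `N_bs(ps R)/ps R` -/
def IsSE (R : Cp p → Subgroup G)
    (ψ : ↥(⊤ : Subgroup (∀ q, NQ (R q))) ≃* ↥(sec (bs p G) (ps R))) : Prop :=
  ∀ (x : WG p G) (hx : x ∈ Subgroup.normalizer (ps R : Set (WG p G))) (_ : x.right = 1)
    (h : ∀ q, x.left q ∈ Subgroup.normalizer (R q : Set G)),
    ((ψ ⟨fun q => qm (R q) (x.left q) (h q), Subgroup.mem_top _⟩ :
      ↥(sec (bs p G) (ps R))) : NQ (ps R)) = qm (ps R) x hx

namespace SecWAux

/-- the elements of the base group which normalize the product of the subgroups -/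
def K0 (R : Cp p → Subgroup G) : Subgroup (WG p G) :=
  bs p G ⊓ Subgroup.normalizer (ps R : Set (WG p G))

theorem K0_right {R : Cp p → Subgroup G} (x : K0 R) : (x : WG p G).right = 1 := mem_bs.1 x.2.1

theorem K0_norm {R : Cp p → Subgroup G} (x : K0 R) (q : Cp p) :
    (x : WG p G).left q ∈ Subgroup.normalizer (R q : Set G) :=
  (mem_norm_ps (K0_right x)).1 x.2.2 q

/-- the components -/
def al (R : Cp p → Subgroup G) : K0 R →* (∀ q, NQ (R q)) where
  toFun x := fun q => qm (R q) ((x : WG p G).left q) (K0_norm x q)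
  map_one' := by
    funext q
    exact qm_eq_one_iff.2 (R q).one_mem
  map_mul' x y := by
    funext q
    exact (qm_congr (mul_left' (K0_right x) _ q) _
      ((Subgroup.normalizer (R q : Set G)).mul_mem (K0_norm x q) (K0_norm y q))).trans
      (qm_mul _ _ _)

/-- the class -/
def be (R : Cp p → Subgroup G) : K0 R →* NQ (ps R) where
  toFun x := qm (ps R) (x : WG p G) x.2.2
  map_one' := qm_eq_one_iff.2 (ps R).one_mem
  map_mul' _ _ := rfl

theorem ker_iff (R : Cp p → Subgroup G) (x : K0 R) : al R x = 1 ↔ be R x = 1 := by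
  have h1 : be R x = 1 ↔ (x : WG p G) ∈ ps R := qm_eq_one_iff
  rw [h1, mem_ps]
  constructor
  · intro h
    refine ⟨K0_right x, fun q => ?_⟩
    have h2 : qm (R q) ((x : WG p G).left q) (K0_norm x q) = 1 := congrFun h q
    exact qm_eq_one_iff.1 h2
  · rintro ⟨_, h⟩
    funext q
    exact qm_eq_one_iff.2 (h q)

theorem range_al (R : Cp p → Subgroup G) : (al R).range = ⊤ := by
  rw [MonoidHom.range_eq_top]
  intro w
  choose n hn hw using fun q => qm_surj (w q)
  have h1 : (⟨n, 1⟩ : WG p G) ∈ K0 R := ⟨mem_bs.2 rfl, (mem_norm_ps rfl).2 hn⟩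
  refine ⟨⟨_, h1⟩, ?_⟩
  funext q
  exact (hw q).symm

theorem range_be (R : Cp p → Subgroup G) : (be R).range = sec (bs p G) (ps R) := by
  ext w
  rw [mem_sec, MonoidHom.mem_range]
  constructor
  · rintro ⟨x, rfl⟩
    exact ⟨x, x.2.1, x.2.2, rfl⟩
  · rintro ⟨x, hx, hx', rfl⟩
    exact ⟨⟨x, hx, hx'⟩, rfl⟩

end SecWAux

theorem exists_secEquiv (R : Cp p → Subgroup G) :
    ∃ ψ : ↥(⊤ : Subgroup (∀ q, NQ (R q))) ≃* ↥(sec (bs p G) (ps R)), IsSE R ψ := by
  obtain ⟨ψ, hψ⟩ := exists_iso_of_ker (al R) (be R) (ker_iff R) (range_al R) (range_be R)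
  exact ⟨ψ, fun x hx hr h => hψ ⟨x, mem_bs.2 hr, hx⟩ _ rfl⟩

section
variable [Fact p.Prime] [Finite G] {R : Cp p → Subgroup G}
  {ψ : ↥(⊤ : Subgroup (∀ q, NQ (R q))) ≃* ↥(sec (bs p G) (ps R))}

theorem coeff_tr_pt (hψ : IsSE R ψ) (φ : ∀ q, MonoidAlgebra k (NQ (R q))) {x : WG p G}
    (hx : x ∈ Subgroup.normalizer (ps R : Set (WG p G))) (hr : x.right = 1)
    (h : ∀ q, x.left q ∈ Subgroup.normalizer (R q : Set G)) :
    (tr ψ (pt φ)).coeff (qm (ps R) x hx) = ∏ q, (φ q).coeff (qm (R q) (x.left q) (h q)) := by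
  rw [← hψ x hx hr h, coeff_tr]
  exact coeff_pt φ _

theorem infl_tr_pt (hψ : IsSE R ψ) (φ : ∀ q, MonoidAlgebra k (NQ (R q))) :
    infl (ps R) (tr ψ (pt φ)) = tn (fun q => infl (R q) (φ q)) := by
  funext x
  by_cases hr : x.right = 1
  · rw [tn_of hr]
    by_cases hx : x ∈ Subgroup.normalizer (ps R : Set (WG p G))
    · have h := (mem_norm_ps hr).1 hx
      rw [infl_of_mem _ hx, coeff_tr_pt hψ φ hx hr h]
      exact Finset.prod_congr rfl fun q _ => (infl_of_mem _ (h q)).symm
    · rw [infl_of_notMem _ hx]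
      obtain ⟨q, hq⟩ : ∃ q, x.left q ∉ Subgroup.normalizer (R q : Set G) := by
        by_contra h
        push Not at h
        exact hx ((mem_norm_ps hr).2 h)
      exact (Finset.prod_eq_zero (Finset.mem_univ q) (infl_of_notMem _ hq)).symm
  · rw [tn_not hr]
    by_cases hx : x ∈ Subgroup.normalizer (ps R : Set (WG p G))
    · rw [infl_of_mem _ hx]
      exact coeff_tr_of_notMem ψ _ fun h => hr (mem_bs.1 ((qm_mem_sec_iff (ps_le R)).1 h))
    · exact infl_of_notMem _ hx

theorem proj_el (hψ : IsSE R ψ) (b : MonoidAlgebra k G) :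
    proj (ps R) (el p b) = tr ψ (pt (fun q => proj (R q) b)) := by
  classical
  haveI : Fintype G := Fintype.ofFinite G
  haveI : Finite (WG p G) := Finite.of_equiv _ (RegularWreathProduct.equivProd G (Cp p)).symm
  haveI : Fintype (WG p G) := Fintype.ofFinite _
  ext w
  obtain ⟨n, hn, rfl⟩ := qm_surj w
  rw [coeff_proj]
  by_cases hr : n.right = 1
  · have h := (mem_norm_ps hr).1 hn
    rw [coeff_tr_pt hψ _ hn hr h]
    have h1 : ∀ q, (proj (R q) b).coeff (qm (R q) (n.left q) (h q)) =
        ∑ y ∈ (Finset.univ : Finset G), if (n.left q)⁻¹ * y ∈ R q then b.coeff y else 0 :=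
      fun q => coeff_proj b (h q)
    rw [Finset.prod_congr rfl fun q _ => h1 q,
      Finset.prod_univ_sum (fun _ : Cp p => (Finset.univ : Finset G))
        (fun q y => if (n.left q)⁻¹ * y ∈ R q then b.coeff y else 0), Fintype.piFinset_univ]
    symm
    refine Finset.sum_of_injOn (fun y : Cp p → G => (⟨y, 1⟩ : WG p G)) ?_ ?_ ?_ ?_
    · intro y _ z _ hyz
      exact congrArg RegularWreathProduct.left hyz
    · intro y _
      exact Finset.mem_coe.2 (Finset.mem_univ _)
    · intro x _ hx
      rw [if_neg]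
      intro h2
      apply hx
      have h3 := (mem_ps.1 h2).1
      rw [RegularWreathProduct.mul_right, inv_right' hr, one_mul] at h3
      exact ⟨x.left, Finset.mem_coe.2 (Finset.mem_univ _), RegularWreathProduct.ext rfl h3.symm⟩
    · intro y _
      rw [Finset.prod_ite_zero, coeff_el, tn_of rfl]
      by_cases h2 : ∀ q, (n.left q)⁻¹ * y q ∈ R q
      · rw [if_pos fun q _ => h2 q, if_pos ((inv_mul_mem hr y).2 h2)]
      · rw [if_neg fun h3 => h2 fun q => h3 q (Finset.mem_univ q),
          if_neg fun h3 => h2 ((inv_mul_mem hr y).1 h3)]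
  · rw [coeff_tr_of_notMem ψ _ fun h => hr (mem_bs.1 ((qm_mem_sec_iff (ps_le R)).1 h))]
    refine Finset.sum_eq_zero fun x _ => ?_
    by_cases h2 : n⁻¹ * x ∈ ps R
    · rw [if_pos h2, coeff_el, tn_not]
      intro h3
      have h4 := (mem_ps.1 h2).1
      rw [RegularWreathProduct.mul_right, h3, mul_one, RegularWreathProduct.inv_right,
        inv_eq_one] at h4
      exact hr h4
    · rw [if_neg h2]

end

end Pool.Agent.Lib.P0c8ca5.Wr
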