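import Mathlib
import Pool.Agent.Lib.P0c8ca5O.SecW
import Pool.Agent.Lib.P0c8ca5O.BlkE
import Pool.Agent.Lib.P0c8ca5O.PiD
import Pool.Agent.Lib.P0c8ca5O.RadW

/-!
# YTw (1.5 h): the weights of the base group in `b ⊗ ⋯ ⊗ b` are the products of weights

`YT p G e` (P0c8ca5.Act): the pairs `(R, f)` with `R ≤ G` a p-subgroup and `f = infl R φ`, `IsDZ p (sec G R) φ`, `φ * proj R e = φ`.
PROOF.  `sec (⊤ : Subgroup G) R = ⊤` (`mem_sec`, `qm_surj`).
`YT_prod`: let `(t q).1.R = R q`, `(t q).1.f = infl (R q) (φ q)`.  `ψ` from `exists_secEquiv`, `Φ = tr ψ (pt φ)`: `IsDZ p (sec (bs p G) (ps R)) Φ` by `isDZ_pt`, `tr_isDZ`;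
`Φ * proj (ps R) (el p b) = Φ` by `proj_el`, `tr_mul` (both supported in `⊤`), `pt_mul`; `infl (ps R) Φ = tn ..` by `infl_tr_pt`; `isPGroup_ps`, `ps_le`.
`exists_equivYT`: the map `t ↦ ⟨ps .., tn ..⟩` is injective: `ps R = ps R'` gives `R = R'` (elements with one component), `subst`; `tn (infl φ) = tn (infl φ')` gives
`infl (ps R) (tr ψ (pt φ)) = infl (ps R) (tr ψ (pt φ'))`, so `tr ψ (pt φ) = tr ψ (pt φ')` (`infl_inj`), `pt φ = pt φ'` (`tr_injOn`), `φ = φ'` (`pt_idem_inj`, blocks are nonzero idempotents).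
It is surjective: let `(S, infl S Φ) ∈ YT p (bs p G) (el p b)`; `exists_ps_of_isDZ` gives `S = ps R` (`subst`/`obtain rfl`), `isPGroup_of_ps`; with `ψ` of `exists_secEquiv`
`tr ψ.symm Φ` is a block of defect zero of `⊤` (`tr_isDZ`), so it is `pt φ` with `IsDZ p ⊤ (φ q)` (`exists_pt_of_isDZ`) and `Φ = tr ψ (pt φ)` (`tr_tr_symm`, `hΦ.blk.suppIn`);
`Φ * proj (ps R) (el p b) = Φ` gives `pt φ * pt (proj (R q) b) = pt φ` (`proj_el`, `tr_mul`, `tr_injOn`), so `φ q * proj (R q) b = φ q` (`pt_mul_eq_iff`; `proj (R q) b` is idempotent: `proj_idem`,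
used in P0c8ca5C.RelCard; `hb.invBy`, `hb.idem`).
-/

namespace Pool.Agent.Lib.P0c8ca5.Wr

open MonoidAlgebra

set_option linter.unusedSectionVars false

variable {p : ℕ} [Fact p.Prime] {k : Type*} [Field k] [IsAlgClosed k] [CharP k p] {G : Type*}
  [Group G] [Finite G]

namespace YTwAux

theorem sec_top {A : Type*} [Group A] (R : Subgroup A) : sec (⊤ : Subgroup A) R = ⊤ := by
  ext w
  obtain ⟨x, hx, rfl⟩ := qm_surj w
  exact ⟨fun _ => Subgroup.mem_top _, fun _ => qm_mem_sec _ (Subgroup.mem_top _)⟩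

theorem suppIn_top {A : Type*} [Group A] (a : MonoidAlgebra k A) :
    SuppIn (⊤ : Subgroup A) a := fun _ _ => Subgroup.mem_top _

theorem mul_iff {b : MonoidAlgebra k G} (hb : IsBlock (⊤ : Subgroup G) b)
    {R : Cp p → Subgroup G} (hR : ∀ q, IsPGroup p (R q))
    {ψ : ↥(⊤ : Subgroup (∀ q, NQ (R q))) ≃* ↥(sec (bs p G) (ps R))} (hψ : IsSE R ψ)
    {φ : ∀ q, MonoidAlgebra k (NQ (R q))} (hφ : ∀ q, φ q ≠ 0) :
    tr ψ (pt φ) * proj (ps R) (el p b) = tr ψ (pt φ) ↔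
      ∀ q, φ q * proj (R q) b = φ q := by
  have _ := Fintype.ofFinite G
  have hc : ∀ q, proj (R q) b * proj (R q) b = proj (R q) b :=
    fun q => proj_idem hb.invBy hb.idem (hR q)
  rw [proj_el hψ, ← tr_mul ψ (suppIn_top _) (suppIn_top _), ← pt_mul_eq_iff hφ hc]
  exact ⟨fun h => tr_injOn ψ (suppIn_top _) (suppIn_top _) h, fun h => by rw [h]⟩

/-- the data of a family of weights -/
theorem prod_aux {b : MonoidAlgebra k G} (hb : IsBlock (⊤ : Subgroup G) b)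
    {R : Cp p → Subgroup G} (hR : ∀ q, IsPGroup p (R q))
    {φ : ∀ q, MonoidAlgebra k (NQ (R q))} (hφ : ∀ q, IsDZ p (sec ⊤ (R q)) (φ q))
    (hφb : ∀ q, φ q * proj (R q) b = φ q) :
    (⟨ps R, tn fun q => infl (R q) (φ q)⟩ : WP k (WG p G)) ∈ YT p (bs p G) (el p b) := by
  obtain ⟨ψ, hψ⟩ := exists_secEquiv R
  have hφ' : ∀ q, IsDZ p (⊤ : Subgroup (NQ (R q))) (φ q) := fun q => by
    rw [← sec_top (R q)]
    exact hφ q
  refine ⟨⟨ps_le R, isPGroup_ps hR⟩, tr ψ (pt φ), ⟨tr_isDZ ψ (isDZ_pt hφ'), ?_⟩, ?_⟩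
  · exact (mul_iff hb hR hψ fun q => (hφ q).blk.ne_zero).2 hφb
  · exact (infl_tr_pt hψ φ).symm

theorem ps_inj {R R' : Cp p → Subgroup G} (h : ps R = ps R') : R = R' := by
  classical
  have key : ∀ {R R' : Cp p → Subgroup G}, ps R = ps R' → ∀ q, R q ≤ R' q := by
    intro R R' h q z hz
    have h1 : (⟨Function.update 1 q z, 1⟩ : WG p G) ∈ ps R := by
      refine ⟨rfl, fun r => ?_⟩
      change (Function.update (1 : Cp p → G) q z) r ∈ R r
      by_cases hr : r = q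
      · subst hr
        rw [Function.update_self]
        exact hz
      · rw [Function.update_of_ne hr]
        exact (R r).one_mem
    rw [h] at h1
    have h2 : (Function.update (1 : Cp p → G) q z) q ∈ R' q := h1.2 q
    rwa [Function.update_self] at h2
  funext q
  exact le_antisymm (key h q) (key h.symm q)

theorem inj_aux {b : MonoidAlgebra k G} {R R' : Cp p → Subgroup G} {f f' : Cp p → G → k}
    (h : ∀ q, (⟨R q, f q⟩ : WP k G) ∈ YT p (⊤ : Subgroup G) b)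
    (h' : ∀ q, (⟨R' q, f' q⟩ : WP k G) ∈ YT p (⊤ : Subgroup G) b)
    (h1 : ps R = ps R') (h2 : tn f = tn f') : R = R' ∧ f = f' := by
  have h3 := ps_inj h1
  subst h3
  refine ⟨rfl, ?_⟩
  obtain ⟨ψ, hψ⟩ := exists_secEquiv R
  have hc : ∀ q, ∃ φ : MonoidAlgebra k (NQ (R q)), IsDZ p (sec ⊤ (R q)) φ ∧ f q = infl (R q) φ :=
    fun q => by
      obtain ⟨_, φ, ⟨h4, _⟩, h5⟩ := h q
      exact ⟨φ, h4, h5⟩
  have hc' : ∀ q, ∃ φ : MonoidAlgebra k (NQ (R q)), IsDZ p (sec ⊤ (R q)) φ ∧ f' q = infl (R q) φ :=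
    fun q => by
      obtain ⟨_, φ, ⟨h4, _⟩, h5⟩ := h' q
      exact ⟨φ, h4, h5⟩
  choose φ hφ hf using hc
  choose φ' hφ' hf' using hc'
  have e1 : f = fun q => infl (R q) (φ q) := funext hf
  have e2 : f' = fun q => infl (R q) (φ' q) := funext hf'
  rw [e1, e2, ← infl_tr_pt hψ φ, ← infl_tr_pt hψ φ'] at h2
  have h4 := tr_injOn ψ (suppIn_top _) (suppIn_top _) (infl_inj h2)
  have h5 : φ = φ' := pt_idem_inj h4 (fun q => (hφ q).blk.idem) (fun q => (hφ' q).blk.idem)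
    (fun q => (hφ' q).blk.ne_zero)
  rw [e1, e2, h5]

theorem surj_aux {b : MonoidAlgebra k G} (hb : IsBlock (⊤ : Subgroup G) b)
    {w : WP k (WG p G)} (hw : w ∈ YT p (bs p G) (el p b)) :
    ∃ (R : Cp p → Subgroup G) (f : Cp p → G → k),
      (∀ q, (⟨R q, f q⟩ : WP k G) ∈ YT p (⊤ : Subgroup G) b) ∧
        w = (⟨ps R, tn f⟩ : WP k (WG p G)) := by
  obtain ⟨S, F⟩ := w
  obtain ⟨⟨hS, hpS⟩, Φ, ⟨hΦ, hΦb⟩, hF⟩ := hw
  obtain ⟨R, rfl⟩ := exists_ps_of_isDZ hS hpS hΦ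
  have hR : ∀ q, IsPGroup p (R q) := fun q => isPGroup_of_ps hpS q
  obtain ⟨ψ, hψ⟩ := exists_secEquiv R
  obtain ⟨φ, hφ, hφ2⟩ := exists_pt_of_isDZ (tr_isDZ ψ.symm hΦ)
  have hΦ2 : Φ = tr ψ (pt φ) := by rw [← hφ2, tr_tr_symm ψ hΦ.blk.suppIn]
  subst hΦ2
  have h1 : ∀ q, φ q * proj (R q) b = φ q :=
    (mul_iff hb hR hψ fun q => (hφ q).blk.ne_zero).1 hΦb
  refine ⟨R, fun q => infl (R q) (φ q), fun q => ?_, ?_⟩
  · refine ⟨⟨le_top, hR q⟩, φ q, ⟨?_, h1 q⟩, rfl⟩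
    rw [sec_top]
    exact hφ q
  · apply WP.ext
    · rfl
    · exact hF.trans (infl_tr_pt hψ φ)

end YTwAux

open YTwAux

theorem YT_prod {b : MonoidAlgebra k G} (hb : IsBlock (⊤ : Subgroup G) b)
    (t : Cp p → ↥(YT p (⊤ : Subgroup G) b)) :
    (⟨ps fun q => (t q).1.R, tn fun q => (t q).1.f⟩ : WP k (WG p G))
      ∈ YT p (bs p G) (el p b) := by
  have hc : ∀ q, ∃ φ : MonoidAlgebra k (NQ (t q).1.R),
      (IsDZ p (sec ⊤ (t q).1.R) φ ∧ φ * proj (t q).1.R b = φ) ∧ (t q).1.f = infl (t q).1.R φ :=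
    fun q => (t q).2.2
  choose φ hφ hf using hc
  have e1 : (fun q => (t q).1.f) = fun q => infl (t q).1.R (φ q) := funext hf
  rw [e1]
  exact prod_aux hb (fun q => (t q).2.1.2) (fun q => (hφ q).1) (fun q => (hφ q).2)

theorem exists_equivYT {b : MonoidAlgebra k G} (hb : IsBlock (⊤ : Subgroup G) b) :
    ∃ Ψ : (Cp p → ↥(YT p (⊤ : Subgroup G) b)) ≃ ↥(YT p (bs p G) (el p b)),
      ∀ t, (Ψ t).1 = (⟨ps fun q => (t q).1.R, tn fun q => (t q).1.f⟩ : WP k (WG p G)) := by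
  let Ψ : (Cp p → ↥(YT p (⊤ : Subgroup G) b)) → ↥(YT p (bs p G) (el p b)) :=
    fun t => ⟨_, YT_prod hb t⟩
  have hΨ : Function.Bijective Ψ := by
    constructor
    · intro t t' h
      have h1 : (⟨ps fun q => (t q).1.R, tn fun q => (t q).1.f⟩ : WP k (WG p G))
        = ⟨ps fun q => (t' q).1.R, tn fun q => (t' q).1.f⟩ := congrArg Subtype.val h
      obtain ⟨h2, h3⟩ := inj_aux (fun q => (t q).2) (fun q => (t' q).2) (congrArg WP.R h1)
        (congrArg WP.f h1)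
      funext q
      apply Subtype.ext
      apply WP.ext
      · exact congrFun h2 q
      · exact congrFun h3 q
    · rintro ⟨w, hw⟩
      obtain ⟨R, f, h1, h2⟩ := surj_aux hb hw
      exact ⟨fun q => ⟨⟨R q, f q⟩, h1 q⟩, Subtype.ext h2.symm⟩
  exact ⟨Equiv.ofBijective Ψ hΨ, fun _ => rfl⟩

end Pool.Agent.Lib.P0c8ca5.Wr
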