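import Mathlib
import Pool.Agent.Lib.P0c8ca5O.YTw
import Pool.Agent.Lib.P0c8ca5O.IrB
import Pool.Agent.Lib.P0c8ca5O.CntL
import Pool.Agent.Lib.P0c8ca5O.CntW
import Pool.Agent.Lib.P0c8ca5O.OrbC
import Pool.Agent.Lib.P0c8ca5O.Ari

/-!
# The amplification: BAW modulo p for all blocks implies BAW
-/

namespace Pool.Agent.Lib.P0c8ca5

open MonoidAlgebra

set_option linter.unusedSectionVars false

universe u v

namespace Wr

theorem Ich_conj {k : Type*} [Field k] {A : Type*} [Group A] [Fintype A] {e : MonoidAlgebra k A}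
    {f : A → k} (hf : f ∈ Ich (⊤ : Subgroup A) e) (g x : A) : f (g⁻¹ * x * g) = f x := by
  obtain ⟨⟨n, ρ, -, rfl⟩, -⟩ := hf
  have h1 := chi_conj_mem ρ (Subgroup.mem_top g⁻¹) x
  rwa [inv_inv] at h1

variable {p : ℕ} [Fact p.Prime] {k : Type*} [Field k] [IsAlgClosed k] [CharP k p] {G : Type*}
  [Group G] [Finite G]

instance finite_WG : Finite (WG p G) :=
  Finite.of_injective (fun x : WG p G => (x.left, x.right)) (fun x y h =>
    RegularWreathProduct.ext (congrArg Prod.fst h) (congrArg Prod.snd h))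

/-- the trivial action of `G` by conjugation on its irreducible characters -/
theorem step_l {b : MonoidAlgebra k G} (hb : IsBlock (⊤ : Subgroup G) b) :
    lN (el p b) = ff p (lN b) := by
  haveI : Fintype G := Fintype.ofFinite G
  haveI : Fintype (WG p G) := Fintype.ofFinite _
  have h1 : lN b = Nat.card (Quotient (chSet (⊤ : Subgroup G) b)) :=
    cnt_l (p := p) (fun x => ⟨0, Subgroup.mem_top _⟩) (fun _ _ => Subgroup.mem_top _) hb.invBy
      hb.idem
  have h2 : lN (el p b) = Nat.card (Quotient (chSet (bs p G) (el p b))) :=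
    cnt_l (p := p) exists_pow_bs (el_suppIn b) (el_invBy hb.invBy) (isBlock_el hb).idem
  obtain ⟨Φ, hΦ⟩ := exists_equivI (p := p) hb.invBy hb.idem
  letI : MulAction G ↥(Ich (⊤ : Subgroup G) b) :=
    { smul := fun _ y => y, one_smul := fun _ => rfl, mul_smul := fun _ _ _ => rfl }
  haveI : Finite ↥(Ich (⊤ : Subgroup G) b) :=
    Set.Finite.subset (Set.toFinite (IrrCh k (⊤ : Subgroup G))) (fun _ h => h.1)
  rw [h1, h2]
  refine orb_card (G := G) (chSet (⊤ : Subgroup G) b) (chSet (bs p G) (el p b)) ?_ Φ ?_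
  · intro y y'
    constructor
    · rintro ⟨g, hg⟩
      refine ⟨1, Subtype.ext (funext fun x => ?_)⟩
      rw [hg, Ich_conj y.2]
      rfl
    · rintro ⟨g, hg⟩
      refine ⟨1, fun x => ?_⟩
      have h3 : y' = y := hg
      rw [h3, inv_one, one_mul, mul_one]
  · intro t t'
    have key : ∀ (a : WG p G), (∀ x, (Φ t').1 x = (Φ t).1 (a⁻¹ * x * a)) ↔
        ∀ q, t' q = t (a.right⁻¹ * q) := by
      intro a
      have h3 : (fun x => (Φ t).1 (a⁻¹ * x * a)) = (Φ fun q => t (a.right⁻¹ * q)).1 := by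
        funext x
        rw [hΦ, hΦ, tn_conj]
        congr 1
        funext q y
        exact Ich_conj (t (a.right⁻¹ * q)).2 (a.left q) y
      constructor
      · intro h q
        have h4 : (Φ t').1 = (Φ fun q => t (a.right⁻¹ * q)).1 := (funext h).trans h3
        exact congrFun (Φ.injective (Subtype.ext h4)) q
      · intro h x
        have h4 : t' = fun q => t (a.right⁻¹ * q) := funext h
        rw [h4, ← h3]
    constructor
    · rintro ⟨a, ha⟩
      exact ⟨a, (key a).1 ha⟩
    · rintro ⟨a, ha⟩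
      exact ⟨a, (key a).2 ha⟩

theorem step_w {b : MonoidAlgebra k G} (hb : IsBlock (⊤ : Subgroup G) b) :
    wN p (el p b) = ff p (wN p b) := by
  haveI : Fintype G := Fintype.ofFinite G
  haveI : Fintype (WG p G) := Fintype.ofFinite _
  have h1 : wN p b = Nat.card (Quotient (wtO p (⊤ : Subgroup G) b)) :=
    cnt_w (fun x => ⟨0, Subgroup.mem_top _⟩) hb hb.invBy
  have h2 : wN p (el p b) = Nat.card (Quotient (wtO p (bs p G) (el p b))) :=
    cnt_w exists_pow_bs (isBlock_el hb) (el_invBy hb.invBy)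
  obtain ⟨Ψ, hΨ⟩ := exists_equivYT (p := p) hb
  letI : MulAction G ↥(YT p (⊤ : Subgroup G) b) := actY (fun _ _ => Subgroup.mem_top _) hb.invBy
  haveI : Finite ↥(YT p (⊤ : Subgroup G) b) := by
    obtain ⟨E, -⟩ := exists_equivPY (p := p) (G := (⊤ : Subgroup G)) (e := b)
      (fun _ _ => Subgroup.mem_top _) hb.invBy
    exact Finite.of_equiv _ E
  rw [h1, h2]
  refine orb_card (G := G) (wtO p (⊤ : Subgroup G) b) (wtO p (bs p G) (el p b)) ?_ Ψ ?_
  · intro y y'
    constructor
    · rintro ⟨g, hg⟩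
      exact ⟨g, Subtype.ext hg⟩
    · rintro ⟨g, hg⟩
      exact ⟨g, congrArg Subtype.val hg⟩
  · intro t t'
    have key : ∀ (a : WG p G), (Ψ t').1 = a • (Ψ t).1 ↔
        ∀ q, t' q = a.left q • t (a.right⁻¹ * q) := by
      intro a
      have h3 : a • (Ψ t).1 = (Ψ fun q => a.left q • t (a.right⁻¹ * q)).1 := by
        rw [hΨ, hΨ]
        apply WP.ext
        · change cg a (ps fun q => (t q).1.R) = _
          rw [cg_ps]
          rfl
        · funext x
          change tn (fun q => (t q).1.f) (a⁻¹ * x * a) = _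
          rw [tn_conj]
          rfl
      constructor
      · intro h q
        have h4 : (Ψ t').1 = (Ψ fun q => a.left q • t (a.right⁻¹ * q)).1 := h.trans h3
        exact congrFun (Ψ.injective (Subtype.ext h4)) q
      · intro h
        have h4 : t' = fun q => a.left q • t (a.right⁻¹ * q) := funext h
        rw [h4, ← h3]
    constructor
    · rintro ⟨a, ha⟩
      exact ⟨a, (key a).1 ha⟩
    · rintro ⟨a, ha⟩
      exact ⟨a, (key a).2 ha⟩

theorem isBlock_el_top {b : MonoidAlgebra k G} (hb : IsBlock (⊤ : Subgroup G) b) :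
    IsBlock (⊤ : Subgroup (WG p G)) (el p b) :=
  isBlock_up (p := p) le_top exists_pow_bs (isBlock_el hb) (el_invBy hb.invBy)

/-- the iterated construction -/
theorem iter (n : ℕ) {k : Type v} [Field k] [IsAlgClosed k] [CharP k p] (G : Type u) [Group G]
    [Finite G] (b : MonoidAlgebra k G) (hb : IsBlock (⊤ : Subgroup G) b) :
    ∃ (G' : Type u) (_ : Group G') (_ : Finite G') (b' : MonoidAlgebra k G'),
      IsBlock (⊤ : Subgroup G') b' ∧ lN b' = (ff p)^[n] (lN b) ∧
        wN p b' = (ff p)^[n] (wN p b) := by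
  induction n with
  | zero => exact ⟨G, inferInstance, inferInstance, b, hb, rfl, rfl⟩
  | succ n ih =>
    obtain ⟨G', i1, i2, b', h1, h2, h3⟩ := ih
    refine ⟨WG p G', inferInstance, inferInstance, el p b', isBlock_el_top h1, ?_, ?_⟩
    · rw [step_l h1, h2, Function.iterate_succ_apply']
    · rw [step_w h1, h3, Function.iterate_succ_apply']

end Wr

theorem amp {p : ℕ} [Fact p.Prime] {k : Type v} [Field k] [IsAlgClosed k] [CharP k p]
    (h : ∀ (G : Type u) [Group G] [Finite G] (b : MonoidAlgebra k G), IsBlock (⊤ : Subgroup G) b →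
      ∃ t : ℤ, gap p (⊤ : Subgroup G) ⊤ b = (p : ℚ) * t) :
    ∀ (G : Type u) [Group G] [Finite G] (b : MonoidAlgebra k G), IsBlock (⊤ : Subgroup G) b →
      gap p (⊤ : Subgroup G) ⊤ b = 0 := by
  intro G _ _ b hb
  haveI : Fintype G := Fintype.ofFinite G
  have key : Wr.lN b = Wr.wN p b := by
    refine Wr.arith (p := p) Fact.out _ _ (fun n => ?_)
    obtain ⟨G', i1, i2, b', h1, h2, h3⟩ := Wr.iter (p := p) n G b hb
    haveI : Fintype G' := Fintype.ofFinite G'
    obtain ⟨t, ht⟩ := h G' b' h1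
    rw [Wr.gap_lw h1, h2, h3] at ht
    refine ⟨t, ?_⟩
    exact_mod_cast ht
  rw [Wr.gap_lw hb, key, sub_self]

end Pool.Agent.Lib.P0c8ca5
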