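import Mathlib
import Pool.Agent.Lib.P0c8ca5O.Main

/-!
# The archimedean amplification: approximate BAW implies BAW

Along the iterated wreath products `G_n` with the cyclic group of order `p` the numbers `l` and `w`
change by `f x = (x ^ p - x) / p + x`.  If `w < l` then `l_n / w_n ≥ exp (c * p ^ n)` for all large
`n`, while `|G_n| ≤ (p * |G|) ^ (p ^ n)`; and `p` does not divide `l_n - w_n` for infinitely
many `n`.
-/

namespace Pool.Agent.Lib.P0c8ca5

open MonoidAlgebra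

set_option linter.unusedSectionVars false

universe u v

namespace Wr

namespace ArchAux

theorem ff_real {p : ℕ} (hp : p.Prime) (x : ℕ) :
    (p : ℝ) * (ff p x : ℝ) = (x : ℝ) ^ p + ((p : ℝ) - 1) * x := by
  have h := ff_spec hp x
  exact_mod_cast h

theorem one_lt {p : ℕ} (hp : p.Prime) : (1 : ℝ) < (p : ℝ) := by exact_mod_cast hp.one_lt

theorem ff_lt {p : ℕ} (hp : p.Prime) {w l : ℕ} (h : w < l) : ff p w < ff p l := by
  have h1 := ff_real hp w
  have h2 := ff_real hp l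
  have h3 := one_lt hp
  have h4 : (w : ℝ) < (l : ℝ) := by exact_mod_cast h
  have h5 : (w : ℝ) ^ p ≤ (l : ℝ) ^ p := pow_le_pow_left₀ (Nat.cast_nonneg w) h4.le p
  have h6 : ((p : ℝ) - 1) * w < ((p : ℝ) - 1) * l := by nlinarith
  have h7 : (p : ℝ) * (ff p w : ℝ) < (p : ℝ) * (ff p l : ℝ) := by linarith
  have h8 : (ff p w : ℝ) < (ff p l : ℝ) := lt_of_mul_lt_mul_left h7 (by linarith)
  exact_mod_cast h8

theorem ff_zero {p : ℕ} (hp : p.Prime) : ff p 0 = 0 := by
  have h1 := ff_real hp 0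
  rw [Nat.cast_zero, zero_pow hp.ne_zero, mul_zero, add_zero] at h1
  have h3 := one_lt hp
  have h2 : (ff p 0 : ℝ) = 0 := by
    rcases mul_eq_zero.1 h1 with h | h
    · linarith
    · exact h
  exact_mod_cast h2

theorem iter_lt {p : ℕ} (hp : p.Prime) {w l : ℕ} (h : w < l) (n : ℕ) :
    (ff p)^[n] w < (ff p)^[n] l := by
  induction n with
  | zero => exact h
  | succ n ih =>
    rw [Function.iterate_succ_apply', Function.iterate_succ_apply']
    exact ff_lt hp ih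

theorem iter_zero {p : ℕ} (hp : p.Prime) (n : ℕ) : (ff p)^[n] 0 = 0 := by
  induction n with
  | zero => rfl
  | succ n ih => rw [Function.iterate_succ_apply', ih, ff_zero hp]

theorem iter_pos {p : ℕ} (hp : p.Prime) {w : ℕ} (h : 0 < w) (n : ℕ) : 0 < (ff p)^[n] w := by
  have h1 := iter_lt hp h n
  rwa [iter_zero hp] at h1

theorem ff_le_pow {p : ℕ} (hp : p.Prime) {w : ℕ} (h : 0 < w) : (ff p w : ℝ) ≤ (w : ℝ) ^ p := by
  have h1 := ff_real hp w
  have h3 := one_lt hp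
  have h4 : (1 : ℝ) ≤ (w : ℝ) := by exact_mod_cast h
  have h5 : (w : ℝ) ≤ (w : ℝ) ^ p := le_self_pow₀ h4 hp.ne_zero
  have h6 : (p : ℝ) * (ff p w : ℝ) ≤ (p : ℝ) * (w : ℝ) ^ p := by nlinarith
  exact le_of_mul_le_mul_left h6 (by linarith)

theorem pow_le_ff {p : ℕ} (hp : p.Prime) (l : ℕ) : (l : ℝ) ^ p ≤ (p : ℝ) * (ff p l : ℝ) := by
  have h1 := ff_real hp l
  have h3 := one_lt hp
  have h4 : (0 : ℝ) ≤ (l : ℝ) := Nat.cast_nonneg l
  nlinarith

theorem ratio {p : ℕ} (hp : p.Prime) {w l : ℕ} (hw : 0 < w) {r : ℝ} (hr : 1 ≤ r)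
    (h : r * w ≤ l) : r * (1 + (r - 1) / p) * (ff p w : ℝ) ≤ (ff p l : ℝ) := by
  have h3 := one_lt hp
  have hp0 : (0 : ℝ) < (p : ℝ) := by linarith
  have hw1 : (1 : ℝ) ≤ (w : ℝ) := by exact_mod_cast hw
  obtain ⟨m, rfl⟩ : ∃ m, p = m + 1 := ⟨p - 1, by have := hp.one_lt; omega⟩
  have hm : m ≠ 0 := by
    rintro rfl
    exact absurd hp.one_lt (by norm_num)
  set P : ℝ := ((m + 1 : ℕ) : ℝ) with hP
  set W : ℝ := (w : ℝ) ^ m with hW
  set R : ℝ := r ^ m with hR
  have hW1 : 1 ≤ W := one_le_pow₀ hw1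
  have hR1 : r ≤ R := le_self_pow₀ hr hm
  have e1 : P * (ff (m + 1) w : ℝ) = (w : ℝ) * (W + (P - 1)) := by
    rw [ff_real hp w, pow_succ]; ring
  have e2 : (r * w) ^ (m + 1) + (P - 1) * (r * w) = r * w * (R * W + (P - 1)) := by
    rw [pow_succ, mul_pow]; ring
  have e3 : (r * w) ^ (m + 1) + (P - 1) * (r * w) ≤ P * (ff (m + 1) l : ℝ) := by
    rw [ff_real hp l]
    have h5 : (r * w) ^ (m + 1) ≤ (l : ℝ) ^ (m + 1) :=
      pow_le_pow_left₀ (by positivity) h _
    have h6 : (P - 1) * (r * w) ≤ (P - 1) * l := mul_le_mul_of_nonneg_left h (by linarith)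
    linarith
  have e4 : (1 + (r - 1) / P) * (W + (P - 1)) ≤ R * W + (P - 1) := by
    have h7 : (r - 1) / P * (W + (P - 1)) ≤ (r - 1) * W := by
      rw [div_mul_eq_mul_div, div_le_iff₀ hp0, mul_assoc]
      refine mul_le_mul_of_nonneg_left ?_ (by linarith)
      nlinarith
    nlinarith
  have e5 : r * w * ((1 + (r - 1) / P) * (W + (P - 1))) ≤ r * w * (R * W + (P - 1)) :=
    mul_le_mul_of_nonneg_left e4 (by positivity)
  have e6 : P * (r * (1 + (r - 1) / P) * (ff (m + 1) w : ℝ)) ≤ P * (ff (m + 1) l : ℝ) := by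
    have e7 : P * (r * (1 + (r - 1) / P) * (ff (m + 1) w : ℝ))
        = r * w * ((1 + (r - 1) / P) * (W + (P - 1))) := by
      rw [show P * (r * (1 + (r - 1) / P) * (ff (m + 1) w : ℝ))
        = r * (1 + (r - 1) / P) * (P * (ff (m + 1) w : ℝ)) by ring, e1]
      ring
    rw [e7]
    linarith
  exact le_of_mul_le_mul_left e6 hp0

theorem iter_ratio {p : ℕ} (hp : p.Prime) {w l : ℕ} (hw : 0 < w) {η : ℝ} (hη : 0 ≤ η)
    (h : (1 + η) * w ≤ l) (n : ℕ) :
    (1 + η) * (1 + η / p) ^ n * ((ff p)^[n] w : ℕ) ≤ ((ff p)^[n] l : ℕ) := by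
  have h3 := one_lt hp
  have hp0 : (0 : ℝ) < (p : ℝ) := by linarith
  have hq : 1 ≤ 1 + η / p := by
    have : 0 ≤ η / p := by positivity
    linarith
  induction n with
  | zero => simpa using h
  | succ n ih =>
    rw [Function.iterate_succ_apply', Function.iterate_succ_apply']
    have h5 : 1 ≤ (1 + η / p) ^ n := one_le_pow₀ hq
    have h6 : 1 + η ≤ (1 + η) * (1 + η / p) ^ n := by nlinarith
    have h7 := ratio hp (iter_pos hp hw n) (by linarith) ih
    refine le_trans ?_ h7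
    refine mul_le_mul_of_nonneg_right ?_ (Nat.cast_nonneg _)
    rw [pow_succ, ← mul_assoc]
    refine mul_le_mul_of_nonneg_left ?_ (by linarith)
    have h8 : η / p ≤ ((1 + η) * (1 + η / p) ^ n - 1) / p := by
      gcongr
      linarith
    linarith

theorem exists_ratio {p : ℕ} (hp : p.Prime) {w l : ℕ} (hw : 0 < w) (h : w < l) (K : ℝ) :
    ∃ n : ℕ, K * ((ff p)^[n] w : ℕ) ≤ ((ff p)^[n] l : ℕ) := by
  have h3 := one_lt hp
  have hp0 : (0 : ℝ) < (p : ℝ) := by linarith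
  have hw1 : (0 : ℝ) < (w : ℝ) := by exact_mod_cast hw
  have hlw : (w : ℝ) < (l : ℝ) := by exact_mod_cast h
  set η : ℝ := (l : ℝ) / w - 1 with hη
  have hη0 : 0 < η := by
    rw [hη, sub_pos, lt_div_iff₀ hw1, one_mul]
    exact hlw
  have h1 : (1 + η) * w ≤ l := by
    rw [hη, add_sub_cancel, div_mul_cancel₀ _ hw1.ne']
  have hq : 1 < 1 + η / p := by
    have : 0 < η / p := by positivity
    linarith
  obtain ⟨n, hn⟩ := pow_unbounded_of_one_lt K hq
  refine ⟨n, le_trans ?_ (iter_ratio hp hw hη0.le h1 n)⟩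
  refine mul_le_mul_of_nonneg_right ?_ (Nat.cast_nonneg _)
  have h5 : 0 < (1 + η / p) ^ n := by positivity
  nlinarith

theorem grow {p : ℕ} (hp : p.Prime) {w l : ℕ} (hw : 0 < w) (h : 2 * (p : ℝ) * w ≤ l) (m : ℕ) :
    (p : ℝ) * 2 ^ p ^ m * ((ff p)^[m] w : ℕ) ≤ ((ff p)^[m] l : ℕ) := by
  have h3 := one_lt hp
  have hp0 : (0 : ℝ) < (p : ℝ) := by linarith
  induction m with
  | zero =>
    have e1 : (p : ℝ) * 2 ^ p ^ 0 * ((ff p)^[0] w : ℕ) = 2 * (p : ℝ) * w := by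
      simp only [pow_zero, pow_one, Function.iterate_zero, id_eq]
      ring
    rw [e1]
    exact h
  | succ m ih =>
    rw [Function.iterate_succ_apply', Function.iterate_succ_apply']
    set a := (ff p)^[m] w
    set b := (ff p)^[m] l
    have ha : 0 < a := iter_pos hp hw m
    have h5 := ff_le_pow hp ha
    have h6 := pow_le_ff hp b
    have h7 : ((p : ℝ) * 2 ^ p ^ m * a) ^ p ≤ (b : ℝ) ^ p :=
      pow_le_pow_left₀ (by positivity) ih p
    have h8 : ((p : ℝ) * 2 ^ p ^ m * a) ^ p = (p : ℝ) ^ p * 2 ^ p ^ (m + 1) * (a : ℝ) ^ p := by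
      rw [mul_pow, mul_pow, ← pow_mul, ← pow_succ]
    have h9 : (p : ℝ) * p ≤ (p : ℝ) ^ p := by
      rw [← pow_two]
      exact pow_le_pow_right₀ h3.le hp.two_le
    have h10 : (p : ℝ) * (p * 2 ^ p ^ (m + 1) * (ff p a : ℝ)) ≤ (p : ℝ) * (ff p b : ℝ) := by
      calc (p : ℝ) * (p * 2 ^ p ^ (m + 1) * (ff p a : ℝ))
          = ((p : ℝ) * p) * (2 ^ p ^ (m + 1) * (ff p a : ℝ)) := by ring
        _ ≤ (p : ℝ) ^ p * (2 ^ p ^ (m + 1) * (ff p a : ℝ)) := by gcongr
        _ ≤ (p : ℝ) ^ p * (2 ^ p ^ (m + 1) * (a : ℝ) ^ p) := by gcongr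
        _ = ((p : ℝ) * 2 ^ p ^ m * a) ^ p := by rw [h8]; ring
        _ ≤ (b : ℝ) ^ p := h7
        _ ≤ _ := h6
    exact le_of_mul_le_mul_left h10 hp0

theorem not_dvd {p : ℕ} (hp : p.Prime) {w l : ℕ} (h : w < l) (M : ℕ) :
    ∃ n, M ≤ n ∧ ¬ (p : ℤ) ∣ (((ff p)^[n] l : ℕ) : ℤ) - (((ff p)^[n] w : ℕ) : ℤ) := by
  by_contra hc
  push Not at hc
  have h1 : (ff p)^[M] l = (ff p)^[M] w := by
    refine arith hp _ _ (fun n => ?_)
    rw [← Function.iterate_add_apply, ← Function.iterate_add_apply]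
    exact hc (n + M) (Nat.le_add_left M n)
  exact absurd h1 (iter_lt hp h M).ne'

/-- the growth of the quotient -/
theorem exists_growth {p : ℕ} (hp : p.Prime) {w l : ℕ} (h : w < l) :
    ∃ c : ℝ, 0 < c ∧ ∀ M : ℕ, ∃ n, M ≤ n ∧
      ¬ (p : ℤ) ∣ (((ff p)^[n] l : ℕ) : ℤ) - (((ff p)^[n] w : ℕ) : ℤ) ∧
      Real.exp (c * (p : ℝ) ^ n) * ((ff p)^[n] w : ℕ) < ((ff p)^[n] l : ℕ) := by
  have h3 := one_lt hp
  have hp0 : (0 : ℝ) < (p : ℝ) := by linarith
  rcases Nat.eq_zero_or_pos w with hw | hw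
  · subst hw
    refine ⟨1, one_pos, fun M => ?_⟩
    obtain ⟨n, hn, hd⟩ := not_dvd hp h M
    refine ⟨n, hn, hd, ?_⟩
    rw [iter_zero hp, Nat.cast_zero, mul_zero]
    exact_mod_cast iter_pos hp h n
  · obtain ⟨N, hN⟩ := exists_ratio hp hw h (2 * (p : ℝ))
    refine ⟨Real.log 2 / (p : ℝ) ^ N, by positivity, fun M => ?_⟩
    obtain ⟨n, hn, hd⟩ := not_dvd hp h (M + N)
    refine ⟨n, by omega, hd, ?_⟩
    obtain ⟨m, rfl⟩ : ∃ m, n = m + N := ⟨n - N, by omega⟩
    have h5 := grow hp (iter_pos hp hw N) hN m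
    rw [← Function.iterate_add_apply, ← Function.iterate_add_apply] at h5
    have h6 : Real.exp (Real.log 2 / (p : ℝ) ^ N * (p : ℝ) ^ (m + N)) = 2 ^ p ^ m := by
      have e1 : Real.log 2 / (p : ℝ) ^ N * (p : ℝ) ^ (m + N) = ((p ^ m : ℕ) : ℝ) * Real.log 2 := by
        rw [pow_add, Nat.cast_pow]
        field_simp
      rw [e1, Real.exp_nat_mul, Real.exp_log (by norm_num)]
    rw [h6]
    refine lt_of_lt_of_le ?_ h5
    have h7 : (0 : ℝ) < ((ff p)^[m + N] w : ℕ) := by exact_mod_cast iter_pos hp hw (m + N)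
    have h8 : (0 : ℝ) < 2 ^ p ^ m * ((ff p)^[m + N] w : ℕ) := by positivity
    nlinarith

end ArchAux

/-- the iterated construction, with the order of the group -/
theorem iter_card (p : ℕ) [Fact p.Prime] (n : ℕ) {k : Type v} [Field k] [IsAlgClosed k] [CharP k p]
    (G : Type u) [Group G] [Finite G] (b : MonoidAlgebra k G) (hb : IsBlock (⊤ : Subgroup G) b) :
    ∃ (G' : Type u) (_ : Group G') (_ : Finite G') (b' : MonoidAlgebra k G'),
      IsBlock (⊤ : Subgroup G') b' ∧ lN b' = (ff p)^[n] (lN b) ∧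
        wN p b' = (ff p)^[n] (wN p b) ∧ n ≤ Nat.card G' ∧
        Nat.card G' * p ≤ (Nat.card G * p) ^ p ^ n := by
  induction n with
  | zero =>
    exact ⟨G, inferInstance, inferInstance, b, hb, rfl, rfl, Nat.zero_le _, by
      rw [pow_zero, pow_one]⟩
  | succ n ih =>
    obtain ⟨G', i1, i2, b', h1, h2, h3, h4, h5⟩ := ih
    have hc : Nat.card (WG p G') = Nat.card G' ^ p * p := by
      have e1 : Nat.card (WG p G') = Nat.card ((Cp p → G') × Cp p) :=
        Nat.card_congr (RegularWreathProduct.equivProd G' (Cp p))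
      rw [e1, Nat.card_prod, Nat.card_fun]
      have e2 : Nat.card (Cp p) = p := by
        rw [Nat.card_congr Multiplicative.toAdd, Nat.card_zmod]
      rw [e2]
    have hp2 : 2 ≤ p := (Fact.out : p.Prime).two_le
    refine ⟨WG p G', inferInstance, inferInstance, el p b', isBlock_el_top h1, ?_, ?_, ?_, ?_⟩
    · rw [step_l h1, h2, Function.iterate_succ_apply']
    · rw [step_w h1, h3, Function.iterate_succ_apply']
    · rw [hc]
      have h6 : 0 < Nat.card G' := Nat.card_pos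
      have h7 : Nat.card G' ≤ Nat.card G' ^ p := Nat.le_self_pow (by omega) _
      nlinarith
    · rw [hc]
      have h7 : p * p ≤ p ^ p := by
        rw [← pow_two]
        exact Nat.pow_le_pow_right (by omega) hp2
      calc Nat.card G' ^ p * p * p = Nat.card G' ^ p * (p * p) := by ring
        _ ≤ Nat.card G' ^ p * p ^ p := Nat.mul_le_mul_left _ h7
        _ = (Nat.card G' * p) ^ p := (mul_pow _ _ _).symm
        _ ≤ ((Nat.card G * p) ^ p ^ n) ^ p := Nat.pow_le_pow_left h5 p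
        _ = (Nat.card G * p) ^ p ^ (n + 1) := by rw [← pow_mul, ← pow_succ]

end Wr

open Wr in
/-- the inequality between the numbers of irreducible representations and weights is
self-improving -/
theorem self_le {p : ℕ} [Fact p.Prime] {k : Type v} [Field k] [IsAlgClosed k] [CharP k p]
    (h : ∀ ε : ℝ, 0 < ε → ∃ M : ℕ, ∀ (G : Type u) [Group G] [Finite G] (b : MonoidAlgebra k G),
      IsBlock (⊤ : Subgroup G) b → M ≤ Nat.card G →
        (p : ℤ) ∣ (lN b : ℤ) - (wN p b : ℤ) ∨ (lN b : ℝ) ≤ (Nat.card G : ℝ) ^ ε * (wN p b : ℝ)) :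
    ∀ (G : Type u) [Group G] [Finite G] (b : MonoidAlgebra k G), IsBlock (⊤ : Subgroup G) b →
      lN b ≤ wN p b := by
  intro G _ _ b hb
  by_contra hc
  push Not at hc
  have hp : p.Prime := Fact.out
  obtain ⟨c, hc0, hgr⟩ := ArchAux.exists_growth hp hc
  have hG : 0 < Nat.card G := Nat.card_pos
  have hGp : (1 : ℝ) < ((Nat.card G * p : ℕ) : ℝ) := by
    have h1 : 1 < Nat.card G * p := lt_of_lt_of_le hp.one_lt (Nat.le_mul_of_pos_left p hG)
    exact_mod_cast h1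
  have hL : 0 < Real.log ((Nat.card G * p : ℕ) : ℝ) := Real.log_pos hGp
  obtain ⟨M, hM⟩ := h (c / Real.log ((Nat.card G * p : ℕ) : ℝ)) (div_pos hc0 hL)
  obtain ⟨n, hn, hd, hlt⟩ := hgr M
  obtain ⟨G', i1, i2, b', h1, h2, h3, h4, h5⟩ := iter_card p n G b hb
  rcases hM G' b' h1 (le_trans hn h4) with h6 | h6
  · rw [h2, h3] at h6
    exact hd h6
  · rw [h2, h3] at h6
    have hG' : 0 < Nat.card G' := Nat.card_pos
    have h7 : (Nat.card G' : ℝ) ≤ ((Nat.card G * p : ℕ) : ℝ) ^ p ^ n := by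
      have h8 : Nat.card G' ≤ (Nat.card G * p) ^ p ^ n :=
        le_trans (Nat.le_mul_of_pos_right _ hp.pos) h5
      exact_mod_cast h8
    have h9 : (Nat.card G' : ℝ) ^ (c / Real.log ((Nat.card G * p : ℕ) : ℝ))
        ≤ Real.exp (c * (p : ℝ) ^ n) := by
      have h10 : Real.log (Nat.card G' : ℝ) ≤ (p : ℝ) ^ n * Real.log ((Nat.card G * p : ℕ) : ℝ) := by
        have h11 := Real.log_le_log (by exact_mod_cast hG') h7
        rw [Real.log_pow] at h11
        exact_mod_cast h11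
      rw [Real.rpow_def_of_pos (by exact_mod_cast hG')]
      apply Real.exp_le_exp.2
      calc Real.log (Nat.card G' : ℝ) * (c / Real.log ((Nat.card G * p : ℕ) : ℝ))
          ≤ (p : ℝ) ^ n * Real.log ((Nat.card G * p : ℕ) : ℝ)
              * (c / Real.log ((Nat.card G * p : ℕ) : ℝ)) :=
            mul_le_mul_of_nonneg_right h10 (div_pos hc0 hL).le
        _ = c * (p : ℝ) ^ n := by field_simp
    have h12 := mul_le_mul_of_nonneg_right h9
      (Nat.cast_nonneg ((ff p)^[n] (wN p b)) : (0 : ℝ) ≤ _)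
    exact absurd (lt_of_le_of_lt (le_trans h6 h12) hlt) (lt_irrefl _)

open Wr in
theorem self_ge {p : ℕ} [Fact p.Prime] {k : Type v} [Field k] [IsAlgClosed k] [CharP k p]
    (h : ∀ ε : ℝ, 0 < ε → ∃ M : ℕ, ∀ (G : Type u) [Group G] [Finite G] (b : MonoidAlgebra k G),
      IsBlock (⊤ : Subgroup G) b → M ≤ Nat.card G →
        (p : ℤ) ∣ (lN b : ℤ) - (wN p b : ℤ) ∨ (wN p b : ℝ) ≤ (Nat.card G : ℝ) ^ ε * (lN b : ℝ)) :
    ∀ (G : Type u) [Group G] [Finite G] (b : MonoidAlgebra k G), IsBlock (⊤ : Subgroup G) b →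
      wN p b ≤ lN b := by
  intro G _ _ b hb
  by_contra hc
  push Not at hc
  have hp : p.Prime := Fact.out
  obtain ⟨c, hc0, hgr⟩ := ArchAux.exists_growth hp hc
  have hG : 0 < Nat.card G := Nat.card_pos
  have hGp : (1 : ℝ) < ((Nat.card G * p : ℕ) : ℝ) := by
    have h1 : 1 < Nat.card G * p := lt_of_lt_of_le hp.one_lt (Nat.le_mul_of_pos_left p hG)
    exact_mod_cast h1
  have hL : 0 < Real.log ((Nat.card G * p : ℕ) : ℝ) := Real.log_pos hGp
  obtain ⟨M, hM⟩ := h (c / Real.log ((Nat.card G * p : ℕ) : ℝ)) (div_pos hc0 hL)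
  obtain ⟨n, hn, hd, hlt⟩ := hgr M
  obtain ⟨G', i1, i2, b', h1, h2, h3, h4, h5⟩ := iter_card p n G b hb
  rcases hM G' b' h1 (le_trans hn h4) with h6 | h6
  · rw [h2, h3, dvd_sub_comm] at h6
    exact hd h6
  · rw [h2, h3] at h6
    have hG' : 0 < Nat.card G' := Nat.card_pos
    have h7 : (Nat.card G' : ℝ) ≤ ((Nat.card G * p : ℕ) : ℝ) ^ p ^ n := by
      have h8 : Nat.card G' ≤ (Nat.card G * p) ^ p ^ n :=
        le_trans (Nat.le_mul_of_pos_right _ hp.pos) h5
      exact_mod_cast h8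
    have h9 : (Nat.card G' : ℝ) ^ (c / Real.log ((Nat.card G * p : ℕ) : ℝ))
        ≤ Real.exp (c * (p : ℝ) ^ n) := by
      have h10 : Real.log (Nat.card G' : ℝ) ≤ (p : ℝ) ^ n * Real.log ((Nat.card G * p : ℕ) : ℝ) := by
        have h11 := Real.log_le_log (by exact_mod_cast hG') h7
        rw [Real.log_pow] at h11
        exact_mod_cast h11
      rw [Real.rpow_def_of_pos (by exact_mod_cast hG')]
      apply Real.exp_le_exp.2
      calc Real.log (Nat.card G' : ℝ) * (c / Real.log ((Nat.card G * p : ℕ) : ℝ))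
          ≤ (p : ℝ) ^ n * Real.log ((Nat.card G * p : ℕ) : ℝ)
              * (c / Real.log ((Nat.card G * p : ℕ) : ℝ)) :=
            mul_le_mul_of_nonneg_right h10 (div_pos hc0 hL).le
        _ = c * (p : ℝ) ^ n := by field_simp
    have h12 := mul_le_mul_of_nonneg_right h9
      (Nat.cast_nonneg ((ff p)^[n] (lN b)) : (0 : ℝ) ≤ _)
    exact absurd (lt_of_le_of_lt (le_trans h6 h12) hlt) (lt_irrefl _)

end Pool.Agent.Lib.P0c8ca5
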